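import Pool.Agent.Lib.MP_1bbd88_ag.Count

/-! Counting pairs of exponents. -/

namespace Pool.Agent.Lib.MP_1bbd88_ag

open Finset

/-- exponents `< q` -/
def box (c q : ℕ) : Finset (Fin c → ℕ) := Fintype.piFinset fun _ => range q

/-- exponents with sum `n` -/
def comps (c n : ℕ) : Finset (Fin c → ℕ) := piAntidiag univ n

theorem mem_box {c q : ℕ} {x : Fin c → ℕ} : x ∈ box c q ↔ ∀ i, x i < q := by
  simp [box]

theorem mem_comps {c n : ℕ} {x : Fin c → ℕ} : x ∈ comps c n ↔ ∑ i, x i = n := by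
  simp [comps]

theorem card_box (c q : ℕ) : (box c q).card = q ^ c := by
  simp [box]

theorem card_comps (c n : ℕ) : (comps c n).card = (c + n - 1).choose n := by
  classical
  have h1 := card_finsuppAntidiag_nat_eq_choose (s := (univ : Finset (Fin c))) n
  rw [card_univ, Fintype.card_fin] at h1
  rw [← h1]
  refine card_bij' (fun x _ => Finsupp.equivFunOnFinite.symm x) (fun y _ => ⇑y) ?_ ?_ ?_ ?_
  · intro x hx
    rw [mem_finsuppAntidiag]
    exact ⟨mem_comps.mp hx, subset_univ _⟩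
  · intro y hy
    rw [mem_finsuppAntidiag] at hy
    exact mem_comps.mpr hy.1
  · intro x _
    rfl
  · intro y _
    ext i
    rfl

theorem card_comps_succ (c n : ℕ) : (comps (c + 1) n).card = (c + n).choose c := by
  rw [card_comps]
  have : c + 1 + n - 1 = c + n := by omega
  rw [this, Nat.choose_symm_add]

/-- pairs `(α, β)` with `β < q` and `|α| = |β|` -/
def Aset' (a b q : ℕ) : Finset ((Fin a → ℕ) × (Fin b → ℕ)) :=
  ((box b q).sigma fun β => comps a (∑ j, β j)).map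
    ⟨fun s => (s.2, s.1), by
      rintro ⟨β, α⟩ ⟨β', α'⟩ h
      simp only [Prod.mk.injEq] at h
      obtain ⟨rfl, rfl⟩ := h
      rfl⟩

theorem mem_Aset' {a b q : ℕ} {t : (Fin a → ℕ) × (Fin b → ℕ)} :
    t ∈ Aset' a b q ↔ (∀ j, t.2 j < q) ∧ ∑ i, t.1 i = ∑ j, t.2 j := by
  simp only [Aset', mem_map, mem_sigma, mem_box, mem_comps, Function.Embedding.coeFn_mk]
  constructor
  · rintro ⟨s, ⟨h1, h2⟩, rfl⟩
    exact ⟨h1, h2⟩
  · intro h
    exact ⟨⟨t.2, t.1⟩, ⟨h.1, h.2⟩, rfl⟩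

theorem card_Aset' (a b q : ℕ) :
    (Aset' (a + 1) b q).card = ∑ β ∈ box b q, (a + ∑ j, β j).choose a := by
  rw [Aset', card_map, card_sigma]
  exact sum_congr rfl fun β _ => card_comps_succ a _

/-- reflection of the box -/
theorem sum_box_reflect {b q : ℕ} (F : (Fin b → ℕ) → ℝ) :
    ∑ β ∈ box b q, F β = ∑ β ∈ box b q, F fun j => q - 1 - β j := by
  have h0 : ∀ β ∈ box b q, (fun j => q - 1 - β j) ∈ box b q := by
    intro β hβ
    rw [mem_box] at hβ ⊢
    intro j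
    have := hβ j
    omega
  have h1 : ∀ β ∈ box b q, (fun j => q - 1 - (q - 1 - β j)) = β := by
    intro β hβ
    rw [mem_box] at hβ
    funext j
    have := hβ j
    omega
  refine sum_bij' (fun β _ j => q - 1 - β j) (fun β _ j => q - 1 - β j) h0 h0 h1 h1 ?_
  intro β hβ
  rw [h1 β hβ]

theorem sum_box_sum {b q : ℕ} (hq : 0 < q) :
    ∑ β ∈ box b q, (((∑ j, β j : ℕ) : ℝ) + 1) = q ^ b * ((b * q - b + 2 : ℝ) / 2) := by
  have h1 := sum_box_reflect (b := b) (q := q) fun β => (((∑ j, β j : ℕ) : ℝ) + 1)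
  have h2 : ∑ β ∈ box b q, (((∑ j, β j : ℕ) : ℝ) + 1) +
      ∑ β ∈ box b q, (((∑ j, (q - 1 - β j) : ℕ) : ℝ) + 1) = q ^ b * (b * q - b + 2 : ℝ) := by
    rw [← sum_add_distrib]
    have h3 : ∀ β ∈ box b q, ((((∑ j, β j : ℕ) : ℝ) + 1) +
        (((∑ j, (q - 1 - β j) : ℕ) : ℝ) + 1)) = (b * q - b + 2 : ℝ) := by
      intro β hβ
      rw [mem_box] at hβ
      have h4 : (∑ j, β j) + ∑ j, (q - 1 - β j) = b * (q - 1) := by
        rw [← sum_add_distrib]
        have h5 : ∀ j ∈ (univ : Finset (Fin b)), β j + (q - 1 - β j) = q - 1 := by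
          intro j _
          have := hβ j
          omega
        rw [sum_congr rfl h5, sum_const, card_univ, Fintype.card_fin, smul_eq_mul]
      have h6 : ((∑ j, β j : ℕ) : ℝ) + ((∑ j, (q - 1 - β j) : ℕ) : ℝ) = b * (q - 1) := by
        rw [← Nat.cast_add, h4, Nat.cast_mul, Nat.cast_sub hq, Nat.cast_one]
      linarith
    rw [sum_congr rfl h3, sum_const, card_box, nsmul_eq_mul, Nat.cast_pow]
  rw [← h1] at h2
  linarith

/-- lower bound by convexity -/
theorem card_Aset'_ge {a b q : ℕ} (hq : 0 < q) :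
    (q : ℝ) ^ b * ((b * q - b + 2 : ℝ) / 2) ^ a / a.factorial ≤ (Aset' (a + 1) b q).card := by
  rw [card_Aset', Nat.cast_sum]
  have h1 : ∀ β ∈ box b q, (((∑ j, β j : ℕ) : ℝ) + 1) ^ a / a.factorial ≤
      ((a + ∑ j, β j).choose a : ℝ) := by
    intro β _
    rw [div_le_iff₀ (by positivity)]
    have h2 := Nat.pow_sub_le_descFactorial (a + ∑ j, β j) a
    have h3 : a + ∑ j, β j + 1 - a = (∑ j, β j) + 1 := by omega
    rw [h3, Nat.descFactorial_eq_factorial_mul_choose] at h2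
    have h4 : (((∑ j, β j) + 1 : ℕ) : ℝ) ^ a ≤ (a.factorial * (a + ∑ j, β j).choose a : ℕ) := by
      exact_mod_cast h2
    push_cast at h4 ⊢
    linarith
  refine le_trans ?_ (sum_le_sum h1)
  rw [← sum_div]
  refine div_le_div_of_nonneg_right ?_ (by positivity)
  -- Jensen
  have hqb : (0 : ℝ) < q ^ b := by positivity
  have h6 := Real.pow_arith_mean_le_arith_mean_pow (box b q) (fun _ => ((q : ℝ) ^ b)⁻¹)
    (fun β => ((∑ j, β j : ℕ) : ℝ) + 1) (fun _ _ => by positivity)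
    (by rw [sum_const, card_box, nsmul_eq_mul, Nat.cast_pow, mul_inv_cancel₀ hqb.ne'])
    (fun _ _ => by positivity) a
  rw [← mul_sum, ← mul_sum, sum_box_sum hq, ← mul_assoc, inv_mul_cancel₀ hqb.ne', one_mul] at h6
  calc (q : ℝ) ^ b * ((b * q - b + 2 : ℝ) / 2) ^ a
      ≤ (q : ℝ) ^ b * (((q : ℝ) ^ b)⁻¹ * ∑ β ∈ box b q, (((∑ j, β j : ℕ) : ℝ) + 1) ^ a) :=
        mul_le_mul_of_nonneg_left h6 hqb.le
    _ = _ := by rw [← mul_assoc, mul_inv_cancel₀ hqb.ne', one_mul]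

end Pool.Agent.Lib.MP_1bbd88_ag
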