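import Pool.Agent.Lib.MP_1bbd88_ag.Box

/-! Lower bounds for the number of exponents in the cases `(2, 3)`, `(3, 3)`, `(4, 4)`. -/

namespace Pool.Agent.Lib.MP_1bbd88_ag

open Finset

/-- admissible pairs of exponents -/
def Adm {a b : ℕ} (q : ℕ) (t : (Fin a → ℕ) × (Fin b → ℕ)) : Prop :=
  ∑ i, t.1 i = ∑ j, t.2 j ∧ ((∀ i, t.1 i < q) ∨ ∀ j, t.2 j < q)

/-- there are at least `n` admissible pairs -/
def Many (a b q : ℕ) (n : ℝ) : Prop :=
  ∃ T : Finset ((Fin a → ℕ) × (Fin b → ℕ)), (∀ t ∈ T, Adm q t) ∧ n ≤ T.card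

theorem Many.mono {a b q : ℕ} {n n' : ℝ} (h : Many a b q n) (hn : n' ≤ n) : Many a b q n' := by
  obtain ⟨T, hT, h⟩ := h
  exact ⟨T, hT, hn.trans h⟩

theorem Many.swap {a b q : ℕ} {n : ℝ} (h : Many a b q n) : Many b a q n := by
  obtain ⟨T, hT, h⟩ := h
  refine ⟨T.map (Equiv.prodComm _ _).toEmbedding, ?_, by rwa [card_map]⟩
  intro t ht
  rw [mem_map] at ht
  obtain ⟨s, hs, rfl⟩ := ht
  obtain ⟨h1, h2⟩ := hT s hs
  exact ⟨h1.symm, h2.symm⟩

theorem Many.le {k : Type*} [Field k] {a b q : ℕ} {n : ℝ} (h : Many a b q n) :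
    n ≤ genColen k 2 a b q := by
  obtain ⟨T, hT, h⟩ := h
  exact h.trans (Nat.cast_le.mpr (card_le_genColen k T hT))

theorem adm_of_mem {a b q : ℕ} {t : (Fin a → ℕ) × (Fin b → ℕ)} (h : t ∈ Aset' a b q) :
    Adm q t := ⟨(mem_Aset'.mp h).2, Or.inr (mem_Aset'.mp h).1⟩

theorem many_jensen {a b q : ℕ} (hq : 0 < q) :
    Many (a + 1) b q ((q : ℝ) ^ b * ((b * q - b + 2 : ℝ) / 2) ^ a / a.factorial) :=
  ⟨Aset' (a + 1) b q, fun _ h => adm_of_mem h, card_Aset'_ge hq⟩

/-! ### the case `(2, 3)` -/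

theorem many_two_three {q : ℕ} (hq : 2 ≤ q) :
    Many 2 3 q ((q : ℝ) ^ 3 * ((3 * q - 3 + 2 : ℝ) / 2) + 3 * ((q + 2).choose 4 : ℝ)) := by
  classical
  let f : Fin 3 × (Fin 5 → ℕ) → (Fin 2 → ℕ) × (Fin 3 → ℕ) := fun x =>
    (![q - 1 - x.2 0, q - 1 - x.2 1], fun i => ![x.2 2, x.2 3, x.2 4] i + if i = x.1 then q else 0)
  let D : Finset (Fin 3 × (Fin 5 → ℕ)) := univ ×ˢ comps 5 (q - 2)
  have hD : ∀ x ∈ D, x.2 0 + x.2 1 + x.2 2 + x.2 3 + x.2 4 = q - 2 := by
    intro x hx
    have h1 := mem_comps.mp (mem_product.mp hx).2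
    rw [Fin.sum_univ_five] at h1
    exact h1
  have hsmall : ∀ x ∈ D, ∀ i, ![x.2 2, x.2 3, x.2 4] i < q := by
    intro x hx i
    have := hD x hx
    fin_cases i
    · change x.2 2 < q
      omega
    · change x.2 3 < q
      omega
    · change x.2 4 < q
      omega
  have hinj : Set.InjOn f (D : Set (Fin 3 × (Fin 5 → ℕ))) := by
    intro x hx y hy h
    have hx' : x ∈ D := hx
    have hy' : y ∈ D := hy
    have h1 := congrArg Prod.fst h
    have h2 := congrArg Prod.snd h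
    have h3 : x.1 = y.1 := by
      by_contra hne
      have h4 := congrFun h2 x.1
      simp only [f, if_true, if_neg hne, add_zero] at h4
      have := hsmall y hy' x.1
      omega
    have e0 : q - 1 - x.2 0 = q - 1 - y.2 0 := congrFun h1 0
    have e1 : q - 1 - x.2 1 = q - 1 - y.2 1 := congrFun h1 1
    have h5 : ∀ i, ![x.2 2, x.2 3, x.2 4] i = ![y.2 2, y.2 3, y.2 4] i := by
      intro i
      have h4 := congrFun h2 i
      simp only [f, h3] at h4
      omega
    have e2 : x.2 2 = y.2 2 := h5 0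
    have e3 : x.2 3 = y.2 3 := h5 1
    have e4 : x.2 4 = y.2 4 := h5 2
    have hx3 := hD x hx'
    have hy3 := hD y hy'
    refine Prod.ext h3 ?_
    funext i
    fin_cases i
    · change x.2 0 = y.2 0
      omega
    · change x.2 1 = y.2 1
      omega
    · exact e2
    · exact e3
    · exact e4
  have hE : (D.image f).card = 3 * (q + 2).choose 4 := by
    rw [card_image_of_injOn hinj, card_product, card_univ, Fintype.card_fin, card_comps_succ]
    congr 2
    omega
  have hadm : ∀ t ∈ D.image f, Adm q t := by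
    intro t ht
    obtain ⟨x, hx, rfl⟩ := mem_image.mp ht
    have h1 := hD x hx
    refine ⟨?_, Or.inl ?_⟩
    · change ∑ i, ![q - 1 - x.2 0, q - 1 - x.2 1] i =
        ∑ i, (![x.2 2, x.2 3, x.2 4] i + if i = x.1 then q else 0)
      rw [sum_add_distrib, sum_ite_eq' univ x.1, if_pos (mem_univ _), Fin.sum_univ_two,
        Fin.sum_univ_three]
      change (q - 1 - x.2 0) + (q - 1 - x.2 1) = x.2 2 + x.2 3 + x.2 4 + q
      omega
    · intro i
      change ![q - 1 - x.2 0, q - 1 - x.2 1] i < q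
      fin_cases i
      · change q - 1 - x.2 0 < q
        omega
      · change q - 1 - x.2 1 < q
        omega
  have hdisj : Disjoint (Aset' 2 3 q) (D.image f) := by
    rw [disjoint_left]
    intro t ht ht'
    obtain ⟨x, hx, rfl⟩ := mem_image.mp ht'
    have h1 := (mem_Aset'.mp ht).1 x.1
    simp only [f, if_true] at h1
    omega
  refine ⟨Aset' 2 3 q ∪ D.image f, ?_, ?_⟩
  · intro t ht
    rcases mem_union.mp ht with h | h
    · exact adm_of_mem h
    · exact hadm t h
  · rw [card_union_of_disjoint hdisj, hE, Nat.cast_add]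
    have h1 := card_Aset'_ge (a := 1) (b := 3) (q := q) (by omega)
    push_cast at h1 ⊢
    simp only [pow_one, Nat.factorial_one, Nat.cast_one, div_one] at h1
    linarith

/-! ### the union of both types -/

/-- pairs with both exponents `< q` -/
def Bset' (a b q : ℕ) : Finset ((Fin a → ℕ) × (Fin b → ℕ)) :=
  (box a q ×ˢ box b q).filter fun t => ∑ i, t.1 i = ∑ j, t.2 j

theorem card_Bset'_le (a b q : ℕ) : (Bset' a (b + 1) q).card ≤ q ^ (a + b) := by
  classical
  have h1 : (Bset' a (b + 1) q).card ≤ (box a q ×ˢ box b q).card := by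
    refine card_le_card_of_injOn (fun t => (t.1, Fin.tail t.2)) ?_ ?_
    · intro t ht
      have h2 := mem_product.mp (mem_filter.mp (mem_coe.mp ht)).1
      refine mem_coe.mpr (mem_product.mpr ⟨h2.1, ?_⟩)
      rw [mem_box] at h2 ⊢
      intro i
      exact (mem_box.mp h2.2) i.succ
    · intro t ht s hs h
      have h2 := (mem_filter.mp (mem_coe.mp ht)).2
      have h3 := (mem_filter.mp (mem_coe.mp hs)).2
      have h' : (t.1, Fin.tail t.2) = (s.1, Fin.tail s.2) := h
      have h4 : t.1 = s.1 := (Prod.mk.inj h').1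
      have h5 : Fin.tail t.2 = Fin.tail s.2 := (Prod.mk.inj h').2
      rw [Fin.sum_univ_succ] at h2 h3
      have h6 : ∀ i : Fin b, t.2 i.succ = s.2 i.succ := fun i => congrFun h5 i
      have h7 : ∑ i : Fin b, t.2 i.succ = ∑ i : Fin b, s.2 i.succ := sum_congr rfl fun i _ => h6 i
      rw [h4] at h2
      refine Prod.ext h4 ?_
      funext j
      refine Fin.cases ?_ (fun i => h6 i) j
      omega
  rwa [card_product, card_box, card_box, ← pow_add] at h1

theorem many_union (a q : ℕ) : Many a a q (2 * (Aset' a a q).card - (Bset' a a q).card) := by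
  classical
  let A := Aset' a a q
  let A' := A.map (Equiv.prodComm (Fin a → ℕ) (Fin a → ℕ)).toEmbedding
  have hA' : ∀ t, t ∈ A' → Adm q t := by
    intro t ht
    obtain ⟨s, hs, rfl⟩ := mem_map.mp ht
    obtain ⟨h1, h2⟩ := adm_of_mem hs
    exact ⟨h1.symm, h2.symm⟩
  have hc : A'.card = A.card := card_map _
  have hi : A ∩ A' ⊆ Bset' a a q := by
    intro t ht
    obtain ⟨h1, h2⟩ := mem_inter.mp ht
    obtain ⟨s, hs, rfl⟩ := mem_map.mp h2
    have h3 := mem_Aset'.mp h1
    have h4 := mem_Aset'.mp hs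
    refine mem_filter.mpr ⟨mem_product.mpr ⟨mem_box.mpr h4.1, mem_box.mpr h3.1⟩, h3.2⟩
  refine ⟨A ∪ A', ?_, ?_⟩
  · intro t ht
    rcases mem_union.mp ht with h | h
    · exact adm_of_mem h
    · exact hA' t h
  · have h1 := card_union_add_card_inter A A'
    have h2 := card_le_card hi
    have h3 : ((A ∪ A').card : ℝ) + (A ∩ A').card = A.card + A.card := by
      rw [← Nat.cast_add, h1, hc, Nat.cast_add]
    have h4 : ((A ∩ A').card : ℝ) ≤ (Bset' a a q).card := by exact_mod_cast h2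
    change 2 * (A.card : ℝ) - _ ≤ _
    linarith

/-! ### the case `(3, 3)` -/

theorem sum_box_succ (b q : ℕ) (F : ℕ → ℝ) : ∑ β ∈ box (b + 1) q, F (∑ j, β j) =
    ∑ x ∈ range q, ∑ β ∈ box b q, F (x + ∑ j, β j) := by
  rw [← sum_product']
  refine sum_bij' (fun β _ => (β 0, Fin.tail β)) (fun s _ => Fin.cons s.1 s.2) ?_ ?_ ?_ ?_ ?_
  · intro β hβ
    rw [mem_box] at hβ
    exact mem_product.mpr ⟨mem_range.mpr (hβ 0), mem_box.mpr fun i => hβ i.succ⟩
  · intro s hs
    obtain ⟨h1, h2⟩ := mem_product.mp hs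
    rw [mem_box] at h2 ⊢
    intro i
    refine Fin.cases ?_ (fun i => ?_) i
    · exact mem_range.mp h1
    · exact h2 i
  · intro β _
    exact Fin.cons_self_tail β
  · intro s _
    rfl
  · intro β _
    rw [Fin.sum_univ_succ]
    rfl

theorem sum_range_id (q : ℕ) : ∑ x ∈ range q, (x : ℝ) = q * ((q - 1) / 2) := by
  induction q with
  | zero => simp
  | succ n ih =>
    rw [sum_range_succ, ih]
    push_cast
    ring

theorem sum_range_sq (q : ℕ) : ∑ x ∈ range q, (x : ℝ) ^ 2 =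
    q * (((q - 1) / 2) ^ 2 + (q ^ 2 - 1) / 12) := by
  induction q with
  | zero => simp
  | succ n ih =>
    rw [sum_range_succ, ih]
    push_cast
    ring

theorem sum_box_sq (b q : ℕ) : ∀ s : ℝ, ∑ β ∈ box b q, (s + ((∑ j, β j : ℕ) : ℝ)) ^ 2 =
    q ^ b * (s ^ 2 + 2 * s * (b * ((q - 1) / 2)) + b * ((q ^ 2 - 1) / 12) +
      (b * ((q - 1) / 2 : ℝ)) ^ 2) := by
  induction b with
  | zero =>
    intro s
    have : box 0 q = {fun i => i.elim0} := by
      ext x
      rw [mem_box, mem_singleton]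
      constructor
      · intro _
        funext i
        exact i.elim0
      · intro _ i
        exact i.elim0
    rw [this]
    simp
  | succ b ih =>
    intro s
    have h1 := sum_box_succ b q fun n => (s + (n : ℝ)) ^ 2
    rw [h1]
    have h2 : ∀ x ∈ range q, ∑ β ∈ box b q, (s + ((x + ∑ j, β j : ℕ) : ℝ)) ^ 2 =
        q ^ b * ((s + x) ^ 2 + 2 * (s + x) * (b * ((q - 1) / 2)) + b * ((q ^ 2 - 1) / 12) +
      (b * ((q - 1) / 2 : ℝ)) ^ 2) := by
      intro x _
      rw [← ih (s + x)]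
      refine sum_congr rfl fun β _ => ?_
      push_cast
      ring
    rw [sum_congr rfl h2, ← mul_sum]
    have h3 : ∀ x ∈ range q, ((s + x) ^ 2 + 2 * (s + x) * (b * ((q - 1) / 2)) +
        b * ((q ^ 2 - 1) / 12) + (b * ((q - 1) / 2 : ℝ)) ^ 2) =
        (s ^ 2 + 2 * s * (b * ((q - 1) / 2)) + b * ((q ^ 2 - 1) / 12) +
          (b * ((q - 1) / 2 : ℝ)) ^ 2) + (2 * s + 2 * (b * ((q - 1) / 2))) * x + (x : ℝ) ^ 2 := by
      intro x _
      ring
    rw [sum_congr rfl h3, sum_add_distrib, sum_add_distrib, sum_const, card_range, nsmul_eq_mul,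
      ← mul_sum, sum_range_id, sum_range_sq]
    push_cast
    ring

theorem card_Aset'_three (q : ℕ) :
    (q : ℝ) ^ 3 * (1 + 2 * (3 * ((q - 1) / 2)) + 3 * ((q ^ 2 - 1) / 12) +
      (3 * ((q - 1) / 2 : ℝ)) ^ 2) / 2 ≤ (Aset' 3 3 q).card := by
  have h1 := sum_box_sq 3 q 1
  rw [card_Aset', Nat.cast_sum]
  have h2 : ∀ β ∈ box 3 q, (1 + ((∑ j, β j : ℕ) : ℝ)) ^ 2 / 2 ≤
      ((2 + ∑ j, β j).choose 2 : ℝ) := by
    intro β _
    rw [div_le_iff₀ (by positivity)]
    have h3 := Nat.pow_sub_le_descFactorial (2 + ∑ j, β j) 2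
    have h4 : 2 + ∑ j, β j + 1 - 2 = 1 + (∑ j, β j) := by omega
    rw [h4, Nat.descFactorial_eq_factorial_mul_choose] at h3
    have h5 : ((1 + (∑ j, β j) : ℕ) : ℝ) ^ 2 ≤ (Nat.factorial 2 * (2 + ∑ j, β j).choose 2 : ℕ) := by
      exact_mod_cast h3
    rw [Nat.factorial_two] at h5
    push_cast at h5 ⊢
    linarith
  refine le_trans ?_ (sum_le_sum h2)
  rw [← sum_div, h1]
  push_cast
  have : (q : ℝ) ^ 3 * (1 ^ 2 + 2 * 1 * (3 * ((q - 1) / 2)) + 3 * ((q ^ 2 - 1) / 12) +
      (3 * ((q - 1) / 2 : ℝ)) ^ 2) / 2 = (q : ℝ) ^ 3 * (1 + 2 * (3 * ((q - 1) / 2)) +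
        3 * ((q ^ 2 - 1) / 12) + (3 * ((q - 1) / 2 : ℝ)) ^ 2) / 2 := by ring
  linarith

/-- number of pairs with small sum -/
def tri (m : ℕ) : Finset (ℕ × ℕ) := (range m ×ˢ range m).filter fun x => x.1 + x.2 < m

theorem card_tri (m : ℕ) : 2 * (tri m).card = m * (m + 1) := by
  have h1 : tri m = (((range m).sigma fun x => range (m - x)) : Finset (Σ _ : ℕ, ℕ)).map
      ⟨fun s => (s.1, s.2), by
        rintro ⟨x, y⟩ ⟨x', y'⟩ h
        simp only [Prod.mk.injEq] at h
        obtain ⟨rfl, rfl⟩ := h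
        rfl⟩ := by
    ext ⟨x, y⟩
    simp only [tri, mem_filter, mem_product, mem_range, mem_map, mem_sigma,
      Function.Embedding.coeFn_mk]
    constructor
    · rintro ⟨⟨h1, h2⟩, h3⟩
      exact ⟨⟨x, y⟩, ⟨h1, by simp only; omega⟩, rfl⟩
    · rintro ⟨⟨x', y'⟩, ⟨h1, h2⟩, h3⟩
      simp only at h1 h2
      have h4 : (x', y') = (x, y) := h3
      obtain ⟨rfl, rfl⟩ := Prod.mk.inj h4
      refine ⟨⟨h1, by omega⟩, by omega⟩
  rw [h1, card_map, card_sigma]
  simp only [card_range]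
  have h2 := sum_range_reflect (fun x => x + 1) m
  have h3 : ∑ x ∈ range m, (m - x) = ∑ x ∈ range m, (x + 1) := by
    rw [← h2]
    refine sum_congr rfl fun x hx => ?_
    have := mem_range.mp hx
    omega
  rw [h3, sum_add_distrib, sum_const, card_range, smul_eq_mul, mul_one, mul_add, mul_comm 2 (∑ x ∈ range m, x),
    sum_range_id_mul_two]
  rcases m with _ | m
  · rfl
  · simp only [Nat.add_sub_cancel]
    ring

theorem slice_le (q n : ℕ) : 8 * ((box 3 q).filter fun β => ∑ j, β j = n).card ≤ 7 * q ^ 2 + 1 := by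
  classical
  set m := q / 2 with hm
  set S := (box 3 q).filter fun β => ∑ j, β j = n with hS
  have hSm : ∀ β ∈ S, β 0 < q ∧ β 1 < q ∧ β 2 < q ∧ β 0 + β 1 + β 2 = n := by
    intro β hβ
    obtain ⟨h1, h2⟩ := mem_filter.mp hβ
    rw [mem_box] at h1
    rw [Fin.sum_univ_three] at h2
    exact ⟨h1 0, h1 1, h1 2, h2⟩
  -- the excluded pairs
  let W : Finset (ℕ × ℕ) := if n + m + 2 ≤ 2 * q then
    (tri m).image (fun x => (q - 1 - x.1, q - 1 - x.2)) else tri m
  have htri : ∀ x ∈ tri m, x.1 < m ∧ x.2 < m ∧ x.1 + x.2 < m := by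
    intro x hx
    obtain ⟨h1, h2⟩ := mem_filter.mp hx
    obtain ⟨h3, h4⟩ := mem_product.mp h1
    exact ⟨mem_range.mp h3, mem_range.mp h4, h2⟩
  have hWc : W.card = (tri m).card := by
    by_cases h : n + m + 2 ≤ 2 * q
    · simp only [W, if_pos h]
      refine card_image_of_injOn ?_
      intro x hx y hy hxy
      have h1 := htri x hx
      have h2 := htri y hy
      have h3 : (q - 1 - x.1, q - 1 - x.2) = (q - 1 - y.1, q - 1 - y.2) := hxy
      simp only [Prod.mk.injEq] at h3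
      refine Prod.ext ?_ ?_
      · omega
      · omega
    · simp only [W, if_neg h]
  have hWsub : W ⊆ range q ×ˢ range q := by
    intro x hx
    by_cases h : n + m + 2 ≤ 2 * q
    · simp only [W, if_pos h] at hx
      obtain ⟨y, hy, rfl⟩ := mem_image.mp hx
      have := htri y hy
      refine mem_product.mpr ⟨mem_range.mpr ?_, mem_range.mpr ?_⟩
      · simp only
        omega
      · simp only
        omega
    · simp only [W, if_neg h] at hx
      have := htri x hx
      refine mem_product.mpr ⟨mem_range.mpr ?_, mem_range.mpr ?_⟩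
      · omega
      · omega
  have hle : S.card ≤ ((range q ×ˢ range q) \ W).card := by
    refine card_le_card_of_injOn (fun β => (β 0, β 1)) ?_ ?_
    · intro β hβ
      have h1 := hSm β (mem_coe.mp hβ)
      refine mem_coe.mpr (mem_sdiff.mpr ⟨mem_product.mpr ⟨mem_range.mpr h1.1,
        mem_range.mpr h1.2.1⟩, ?_⟩)
      intro hW
      by_cases h : n + m + 2 ≤ 2 * q
      · simp only [W, if_pos h] at hW
        obtain ⟨y, hy, hy2⟩ := mem_image.mp hW
        have h3 := htri y hy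
        simp only [Prod.mk.injEq] at hy2
        omega
      · simp only [W, if_neg h] at hW
        have h3 := htri _ hW
        simp only at h3
        omega
    · intro β hβ γ hγ h
      have h1 := hSm β (mem_coe.mp hβ)
      have h2 := hSm γ (mem_coe.mp hγ)
      have h3 : (β 0, β 1) = (γ 0, γ 1) := h
      simp only [Prod.mk.injEq] at h3
      funext j
      fin_cases j
      · exact h3.1
      · exact h3.2
      · change β 2 = γ 2
        omega
  rw [card_sdiff_of_subset hWsub, card_product, card_range, hWc] at hle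
  have h5 := card_tri m
  have h6 : (tri m).card ≤ q * q := by
    have h11 := card_le_card hWsub
    rwa [card_product, card_range, hWc] at h11
  have h7 : q * q ≤ 8 * (tri m).card + 1 := by
    have h8 : q ≤ 2 * m + 1 := by omega
    have h9 : 8 * (tri m).card = 4 * (m * (m + 1)) := by omega
    rw [h9]
    nlinarith
  have h10 : S.card + (tri m).card ≤ q * q := by omega
  rw [pow_two]
  omega

theorem card_Bset'_three (q : ℕ) : 8 * (Bset' 3 3 q).card ≤ q ^ 3 * (7 * q ^ 2 + 1) := by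
  classical
  have h1 : (Bset' 3 3 q).card = ∑ α ∈ box 3 q, ((box 3 q).filter fun β => ∑ j, β j = ∑ i, α i).card := by
    rw [Bset', ← card_sigma]
    refine card_bij' (fun t _ => ⟨t.1, t.2⟩) (fun s _ => (s.1, s.2)) ?_ ?_ ?_ ?_
    · intro t ht
      obtain ⟨h1, h2⟩ := mem_filter.mp ht
      obtain ⟨h3, h4⟩ := mem_product.mp h1
      exact mem_sigma.mpr ⟨h3, mem_filter.mpr ⟨h4, h2.symm⟩⟩
    · intro s hs
      obtain ⟨h1, h2⟩ := mem_sigma.mp hs
      obtain ⟨h3, h4⟩ := mem_filter.mp h2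
      exact mem_filter.mpr ⟨mem_product.mpr ⟨h1, h3⟩, h4.symm⟩
    · intro _ _
      rfl
    · intro _ _
      rfl
  rw [h1, mul_sum]
  refine (sum_le_sum fun α _ => slice_le q (∑ i, α i)).trans ?_
  rw [sum_const, card_box, smul_eq_mul]

theorem many_three_three (q : ℕ) : Many 3 3 q
    (2 * ((q : ℝ) ^ 3 * (1 + 2 * (3 * ((q - 1) / 2)) + 3 * ((q ^ 2 - 1) / 12) +
      (3 * ((q - 1) / 2 : ℝ)) ^ 2) / 2) - (q : ℝ) ^ 3 * (7 * q ^ 2 + 1) / 8) := by
  refine (many_union 3 q).mono ?_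
  have h1 := card_Aset'_three q
  have h2 : (8 * (Bset' 3 3 q).card : ℝ) ≤ (q : ℝ) ^ 3 * (7 * q ^ 2 + 1) := by
    exact_mod_cast card_Bset'_three q
  linarith

theorem many_four_four {q : ℕ} (hq : 0 < q) : Many 4 4 q
    (2 * ((q : ℝ) ^ 4 * ((4 * q - 4 + 2 : ℝ) / 2) ^ 3 / 6) - (q : ℝ) ^ 7) := by
  refine (many_union 4 q).mono ?_
  have h1 := card_Aset'_ge (a := 3) (b := 4) (q := q) hq
  have h2 : ((Bset' 4 4 q).card : ℝ) ≤ (q : ℝ) ^ 7 := by
    exact_mod_cast card_Bset'_le 4 3 q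
  have h3 : (Nat.factorial 3 : ℝ) = 6 := by norm_num [Nat.factorial]
  rw [h3] at h1
  push_cast at h1
  linarith

end Pool.Agent.Lib.MP_1bbd88_ag
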