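import Pool.Agent.Lib.MP_1bbd88_ag.Lower

/-! Lower bound for the colength of the generic ideal of `2`-minors by a number of monomials. -/

namespace Pool.Agent.Lib.MP_1bbd88_ag

open Module

/-- matrices of nonnegative integers with given row and column sums -/
theorem exists_margins {a b : ℕ} : ∀ (n : ℕ) (α : Fin a → ℕ) (β : Fin b → ℕ), ∑ i, α i = n →
    ∑ j, β j = n → ∃ m : Fin a × Fin b → ℕ, (∀ i, ∑ j, m (i, j) = α i) ∧
      ∀ j, ∑ i, m (i, j) = β j := by
  classical
  intro n
  induction n with
  | zero =>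
    intro α β hα hβ
    refine ⟨fun _ => 0, fun i => ?_, fun j => ?_⟩
    · rw [Finset.sum_const_zero]
      exact ((Finset.sum_eq_zero_iff.mp hα) i (Finset.mem_univ i)).symm
    · rw [Finset.sum_const_zero]
      exact ((Finset.sum_eq_zero_iff.mp hβ) j (Finset.mem_univ j)).symm
  | succ n ih =>
    intro α β hα hβ
    obtain ⟨i0, -, hi0⟩ : ∃ i ∈ Finset.univ, α i ≠ 0 := by
      by_contra h
      push Not at h
      rw [Finset.sum_eq_zero h] at hα
      omega
    obtain ⟨j0, -, hj0⟩ : ∃ j ∈ Finset.univ, β j ≠ 0 := by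
      by_contra h
      push Not at h
      rw [Finset.sum_eq_zero h] at hβ
      omega
    have key : ∀ {c : ℕ} (γ : Fin c → ℕ) (i0 : Fin c), γ i0 ≠ 0 → ∑ i, γ i = n + 1 →
        ∑ i, (γ i - if i = i0 then 1 else 0) = n := by
      intro c γ i0 h0 h1
      have h2 : ∑ i, γ i = ∑ i, ((γ i - if i = i0 then 1 else 0) + if i = i0 then 1 else 0) := by
        refine Finset.sum_congr rfl fun i _ => ?_
        split_ifs with h
        · rw [h]
          omega
        · rfl
      rw [Finset.sum_add_distrib, Finset.sum_ite_eq' Finset.univ i0, if_pos (Finset.mem_univ _)] at h2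
      omega
    obtain ⟨m, hm1, hm2⟩ := ih (fun i => α i - if i = i0 then 1 else 0)
      (fun j => β j - if j = j0 then 1 else 0) (key α i0 hi0 hα) (key β j0 hj0 hβ)
    refine ⟨fun x => m x + if x = (i0, j0) then 1 else 0, fun i => ?_, fun j => ?_⟩
    · rw [Finset.sum_add_distrib, hm1]
      have : ∑ j, (if (i, j) = (i0, j0) then 1 else 0) = if i = i0 then 1 else 0 := by
        by_cases h : i = i0
        · simp [h]
        · simp [h]
      rw [this]
      split_ifs with h
      · rw [h]
        omega
      · rfl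
    · rw [Finset.sum_add_distrib, hm2]
      have : ∑ i, (if (i, j) = (i0, j0) then 1 else 0) = if j = j0 then 1 else 0 := by
        by_cases h : j = j0
        · simp [h]
        · simp [h]
      rw [this]
      split_ifs with h
      · rw [h]
        omega
      · rfl

/-- the exponent of `u^α v^β` -/
noncomputable def expo {a b : ℕ} (α : Fin a → ℕ) (β : Fin b → ℕ) : Fin a ⊕ Fin b →₀ ℕ :=
  Finsupp.equivFunOnFinite.symm (Sum.elim α β)

theorem expo_inl {a b : ℕ} (α : Fin a → ℕ) (β : Fin b → ℕ) (i : Fin a) :
    expo α β (Sum.inl i) = α i := rfl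

theorem expo_inr {a b : ℕ} (α : Fin a → ℕ) (β : Fin b → ℕ) (j : Fin b) :
    expo α β (Sum.inr j) = β j := rfl

/-- low exponents -/
def Low {a b : ℕ} (q : ℕ) (e : Fin a ⊕ Fin b →₀ ℕ) : Prop :=
  (∀ i, e (Sum.inl i) < q) ∨ ∀ j, e (Sum.inr j) < q

/-- polynomials without low monomials -/
def lowP (k : Type*) [Field k] (a b q : ℕ) : Ideal (MvPolynomial (Fin a ⊕ Fin b) k) where
  carrier := {f | ∀ e, Low q e → MvPolynomial.coeff e f = 0}
  add_mem' := by
    intro f g hf hg e he
    rw [MvPolynomial.coeff_add, hf e he, hg e he, add_zero]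
  zero_mem' := fun e _ => MvPolynomial.coeff_zero e
  smul_mem' := by
    classical
    intro c f hf e he
    rw [smul_eq_mul, MvPolynomial.coeff_mul]
    refine Finset.sum_eq_zero fun x hx => ?_
    have h1 := Finset.HasAntidiagonal.mem_antidiagonal.mp hx
    have h2 : ∀ s, x.1 s + x.2 s = e s := fun s => by rw [← h1]; rfl
    rw [hf x.2 ?_, mul_zero]
    rcases he with he | he
    · left
      intro i
      have := he i
      have := h2 (Sum.inl i)
      omega
    · right
      intro j
      have := he j
      have := h2 (Sum.inr j)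
      omega

/-- the Segre map -/
noncomputable def segre (k : Type*) [Field k] (a b : ℕ) :
    MvPolynomial (Fin a × Fin b) k →ₐ[k] MvPolynomial (Fin a ⊕ Fin b) k :=
  MvPolynomial.aeval fun ij => MvPolynomial.X (Sum.inl ij.1) * MvPolynomial.X (Sum.inr ij.2)

theorem segre_X {k : Type*} [Field k] {a b : ℕ} (i : Fin a) (j : Fin b) :
    segre k a b (MvPolynomial.X (i, j)) =
      MvPolynomial.X (Sum.inl i) * MvPolynomial.X (Sum.inr j) := by
  rw [segre, MvPolynomial.aeval_X]

theorem segre_ideal {k : Type*} [Field k] {a b : ℕ} (q : ℕ) :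
    (minors 2 (genMat a b k) ⊔ powI (Fin a × Fin b) k q) ≤
      (lowP k a b q).comap (segre k a b) := by
  rw [sup_le_iff]
  constructor
  · refine minors_le fun r c => ?_
    rw [Ideal.mem_comap]
    have : segre k a b ((genMat a b k).submatrix r c).det = 0 := by
      rw [Matrix.det_fin_two]
      simp only [Matrix.submatrix_apply, genMat]
      rw [map_sub, map_mul, map_mul, segre_X, segre_X, segre_X, segre_X]
      ring
    rw [this]
    exact Ideal.zero_mem _
  · rw [powI, Ideal.span_le]
    rintro _ ⟨⟨i, j⟩, rfl⟩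
    change segre k a b (MvPolynomial.X (i, j) ^ q) ∈ lowP k a b q
    rw [map_pow, segre_X, mul_pow]
    intro e he
    have h1 : (MvPolynomial.X (Sum.inl i) ^ q * MvPolynomial.X (Sum.inr j) ^ q :
        MvPolynomial (Fin a ⊕ Fin b) k) = MvPolynomial.monomial
          (Finsupp.single (Sum.inl i) q + Finsupp.single (Sum.inr j) q) 1 := by
      rw [MvPolynomial.X_pow_eq_monomial, MvPolynomial.X_pow_eq_monomial,
        MvPolynomial.monomial_mul, one_mul]
    classical
    rw [h1, MvPolynomial.coeff_monomial, if_neg]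
    intro h2
    have h3 : e (Sum.inl i) = q := by rw [← h2]; simp
    have h4 : e (Sum.inr j) = q := by rw [← h2]; simp
    rcases he with he | he
    · exact absurd (he i) (by omega)
    · exact absurd (he j) (by omega)

theorem exists_segre {k : Type*} [Field k] {a b : ℕ} (α : Fin a → ℕ) (β : Fin b → ℕ)
    (h : ∑ i, α i = ∑ j, β j) : ∃ f, segre k a b f = MvPolynomial.monomial (expo α β) 1 := by
  classical
  obtain ⟨m, hm1, hm2⟩ := exists_margins _ α β h rfl
  refine ⟨∏ ij : Fin a × Fin b, MvPolynomial.X ij ^ m ij, ?_⟩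
  rw [map_prod]
  have h1 : ∀ ij : Fin a × Fin b, segre k a b (MvPolynomial.X ij ^ m ij) =
      MvPolynomial.monomial (Finsupp.single (Sum.inl ij.1) (m ij) +
        Finsupp.single (Sum.inr ij.2) (m ij)) 1 := by
    intro ij
    rw [map_pow, segre_X, mul_pow, MvPolynomial.X_pow_eq_monomial,
      MvPolynomial.X_pow_eq_monomial, MvPolynomial.monomial_mul, one_mul]
  have e0 : (∑ ij : Fin a × Fin b, (Finsupp.single (Sum.inl ij.1) (m ij) +
        Finsupp.single (Sum.inr ij.2) (m ij))) = expo α β := by
   ext s
   rw [Finsupp.finsetSum_apply, Fintype.sum_prod_type]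
   rcases s with i | j
   · rw [expo_inl, ← hm1 i]
     simp only [Finsupp.add_apply, Finsupp.single_apply, reduceCtorEq, if_false, add_zero,
       Sum.inl.injEq]
     rw [Finset.sum_eq_single i]
     · simp
     · intro i' _ hne
       simp [hne]
     · simp
   · rw [expo_inr, ← hm2 j]
     simp only [Finsupp.add_apply, Finsupp.single_apply, reduceCtorEq, if_false, zero_add,
       Sum.inr.injEq]
     refine Finset.sum_congr rfl fun i _ => ?_
     rw [Finset.sum_eq_single j]
     · simp
     · intro j' _ hne
       simp [hne]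
     · simp
  rw [Finset.prod_congr rfl fun ij _ => h1 ij, ← MvPolynomial.monomial_sum_one, e0]

theorem card_le_genColen (k : Type*) [Field k] {a b q : ℕ}
    (T : Finset ((Fin a → ℕ) × (Fin b → ℕ)))
    (hT : ∀ t ∈ T, ∑ i, t.1 i = ∑ j, t.2 j ∧ ((∀ i, t.1 i < q) ∨ ∀ j, t.2 j < q)) :
    T.card ≤ genColen k 2 a b q := by
  classical
  let L0 : MvPolynomial (Fin a × Fin b) k →ₗ[k] (T → k) :=
    { toFun := fun f t => MvPolynomial.coeff (expo t.1.1 t.1.2) (segre k a b f)
      map_add' := by
        intro f g
        funext t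
        rw [map_add, MvPolynomial.coeff_add]
        rfl
      map_smul' := by
        intro c f
        funext t
        rw [map_smul, MvPolynomial.coeff_smul]
        rfl }
  have hker : (minors 2 (genMat a b k) ⊔ powI (Fin a × Fin b) k q).restrictScalars k ≤
      LinearMap.ker L0 := by
    intro f hf
    rw [LinearMap.mem_ker]
    funext t
    have h1 := segre_ideal (k := k) (a := a) (b := b) q hf
    exact h1 (expo t.1.1 t.1.2) (hT t.1 t.2).2
  have hsur : Function.Surjective L0 := by
    intro w
    choose f hf using fun t : T => exists_segre (k := k) t.1.1 t.1.2 (hT t.1 t.2).1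
    refine ⟨∑ t, w t • f t, ?_⟩
    have h2 : ∀ t t' : T, L0 (f t) t' = if t = t' then 1 else 0 := by
      intro t t'
      change MvPolynomial.coeff (expo t'.1.1 t'.1.2) (segre k a b (f t)) = _
      rw [hf t, MvPolynomial.coeff_monomial]
      by_cases h : t = t'
      · rw [h, if_pos rfl, if_pos rfl]
      · rw [if_neg h, if_neg]
        intro h3
        apply h
        apply Subtype.ext
        refine Prod.ext ?_ ?_
        · funext i
          exact congrArg (fun e : Fin a ⊕ Fin b →₀ ℕ => e (Sum.inl i)) h3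
        · funext j
          exact congrArg (fun e : Fin a ⊕ Fin b →₀ ℕ => e (Sum.inr j)) h3
    rw [map_sum]
    funext t'
    rw [Finset.sum_apply, Finset.sum_eq_single t']
    · rw [map_smul, Pi.smul_apply, h2, if_pos rfl, smul_eq_mul, mul_one]
    · intro t _ hne
      rw [map_smul, Pi.smul_apply, h2, if_neg hne, smul_zero]
    · intro h
      exact absurd (Finset.mem_univ _) h
  have h4 : T.card = finrank k (T → k) := by
    rw [finrank_fintype_fun_eq_card, Fintype.card_coe]
  rw [h4, genColen]
  let g : (MvPolynomial (Fin a × Fin b) k ⧸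
      (minors 2 (genMat a b k) ⊔ powI (Fin a × Fin b) k q)) →ₗ[k] (T → k) :=
    (Submodule.liftQ _ L0 hker).comp
      (Submodule.Quotient.restrictScalarsEquiv k
        (minors 2 (genMat a b k) ⊔ powI (Fin a × Fin b) k q)).symm.toLinearMap
  refine LinearMap.finrank_le_finrank_of_surjective (f := g) ?_
  intro w
  obtain ⟨f, hf⟩ := hsur w
  exact ⟨Ideal.Quotient.mk _ f, hf⟩

end Pool.Agent.Lib.MP_1bbd88_ag
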