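import Pool.Agent.Lib.MP_1bbd88_ag.Transfer

/-! Ideals of minors and the generic matrix. -/

namespace Pool.Agent.Lib.MP_1bbd88_ag

open Module

/-- The ideal generated by the `t × t` minors of the matrix `M`. -/
def minors {R : Type*} [CommRing R] {a b : ℕ} (t : ℕ) (M : Matrix (Fin a) (Fin b) R) : Ideal R :=
  Ideal.span (Set.range fun rc : (Fin t → Fin a) × (Fin t → Fin b) =>
    (M.submatrix rc.1 rc.2).det)

/-- The generic `a × b` matrix. -/
noncomputable def genMat (a b : ℕ) (k : Type*) [CommRing k] :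
    Matrix (Fin a) (Fin b) (MvPolynomial (Fin a × Fin b) k) :=
  fun i j => MvPolynomial.X (i, j)

theorem minor_mem {R : Type*} [CommRing R] {a b t : ℕ} (M : Matrix (Fin a) (Fin b) R)
    (r : Fin t → Fin a) (c : Fin t → Fin b) : (M.submatrix r c).det ∈ minors t M :=
  Ideal.subset_span ⟨(r, c), rfl⟩

theorem minors_le {R : Type*} [CommRing R] {a b t : ℕ} {M : Matrix (Fin a) (Fin b) R}
    {I : Ideal R} (h : ∀ (r : Fin t → Fin a) (c : Fin t → Fin b), (M.submatrix r c).det ∈ I) :
    minors t M ≤ I := by
  rw [minors, Ideal.span_le]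
  rintro _ ⟨rc, rfl⟩
  exact h rc.1 rc.2

theorem map_minors {R S : Type*} [CommRing R] [CommRing S] {a b t : ℕ} (f : R →+* S)
    (M : Matrix (Fin a) (Fin b) R) : (minors t M).map f = minors t (M.map f) := by
  rw [minors, minors, Ideal.map_span, ← Set.range_comp]
  congr 1
  congr 1
  funext rc
  simp only [Function.comp_apply]
  rw [RingHom.map_det]
  rfl

/-- a polynomial ring modulo powers of the variables is finite -/
theorem finite_quot {σ k : Type*} [Finite σ] [Field k] {q : ℕ} (I : Ideal (MvPolynomial σ k))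
    (hI : ∀ i, (MvPolynomial.X i : MvPolynomial σ k) ^ q ∈ I) :
    FiniteDimensional k (MvPolynomial σ k ⧸ I) := by
  have h1 : Algebra.IsIntegral k (MvPolynomial σ k ⧸ I) := by
    constructor
    intro x
    obtain ⟨f, rfl⟩ := Ideal.Quotient.mk_surjective x
    induction f using MvPolynomial.induction_on with
    | C a =>
      exact isIntegral_algebraMap (R := k) (A := MvPolynomial σ k ⧸ I) (x := a)
    | add f g hf hg =>
      rw [map_add]
      exact hf.add hg
    | mul_X f i hf =>
      rw [map_mul]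
      refine hf.mul ?_
      refine ⟨Polynomial.X ^ q, Polynomial.monic_X_pow q, ?_⟩
      rw [Polynomial.eval₂_X_pow, ← map_pow]
      exact Ideal.Quotient.eq_zero_iff_mem.mpr (hI i)
  have h2 : Algebra.FiniteType k (MvPolynomial σ k ⧸ I) := inferInstance
  exact Algebra.IsIntegral.finite

instance finite_quot_powI {σ k : Type*} [Finite σ] [Field k] {q : ℕ}
    (J : Ideal (MvPolynomial σ k)) : FiniteDimensional k (MvPolynomial σ k ⧸ (J ⊔ powI σ k q)) :=
  finite_quot (q := q) _ fun i => Ideal.mem_sup_right (Ideal.subset_span ⟨i, rfl⟩)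

end Pool.Agent.Lib.MP_1bbd88_ag
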