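import Pool.Agent.Lib.MP_1bbd88_ag.PS

/-! Length over the local ring is dimension over the coefficient field. -/

namespace Pool.Agent.Lib.MP_1bbd88_ag

open Module IsLocalRing

/-- The bracket power `I^[q]`: the ideal generated by the `q`-th powers of the elements of `I`. -/
def bracket {A : Type*} [CommRing A] (I : Ideal A) (q : ℕ) : Ideal A :=
  Ideal.span ((fun x => x ^ q) '' (I : Set A))

section

variable {k : Type*} [Field k] {N : ℕ}

theorem residue_surj : Function.Surjective
    (algebraMap k (ResidueField (MvPowerSeries (Fin N) k))) := by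
  intro x
  obtain ⟨f, rfl⟩ := residue_surjective x
  refine ⟨MvPowerSeries.constantCoeff f, ?_⟩
  have h1 : algebraMap k (ResidueField (MvPowerSeries (Fin N) k)) (MvPowerSeries.constantCoeff f) =
      residue _ (MvPowerSeries.C (MvPowerSeries.constantCoeff f)) := rfl
  rw [h1, ← sub_eq_zero, ← map_sub, residue_eq_zero_iff, mem_maximalIdeal, mem_nonunits_iff,
    MvPowerSeries.isUnit_iff_constantCoeff]
  simp

theorem length_eq_finrank (J : Ideal (MvPowerSeries (Fin N) k))
    [FiniteDimensional k (MvPowerSeries (Fin N) k ⧸ J)] :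
    Module.length (MvPowerSeries (Fin N) k) (MvPowerSeries (Fin N) k ⧸ J) =
      finrank k (MvPowerSeries (Fin N) k ⧸ J) := by
  set S := MvPowerSeries (Fin N) k with hS
  have h1 := IsLocalRing.length_restrictScalars k S (ResidueField S)
  have h2 : Module.length k (ResidueField S) = 1 := by
    rw [Module.length_eq_of_surjective (R := ResidueField S) residue_surj, Module.length_eq_one]
  have h3 : Module.length S (ResidueField S) = 1 := by
    rw [Module.length_eq_of_surjective (R := ResidueField S) residue_surjective,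
      Module.length_eq_one]
  rw [h2, h3, one_mul] at h1
  have h4 := IsLocalRing.length_restrictScalars k S (S ⧸ J)
  rw [← h1, mul_one] at h4
  rw [← h4, Module.length_eq_finrank]

theorem bracket_eq {p : ℕ} [Fact p.Prime] [CharP k p] {e : ℕ} {A : Type*} [CommRing A]
    [IsLocalRing A] (f : MvPowerSeries (Fin N) k →+* A) (hf : Function.Surjective f) :
    bracket (maximalIdeal A) (p ^ e) = (psI (Fin N) k (p ^ e)).map f := by
  apply le_antisymm
  · rw [bracket, Ideal.span_le]
    rintro _ ⟨x, hx, rfl⟩
    obtain ⟨y, rfl⟩ := hf x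
    have hy : MvPowerSeries.constantCoeff y = 0 := by
      by_contra hne
      have h1 : IsUnit y := MvPowerSeries.isUnit_iff_constantCoeff.mpr (Ne.isUnit hne)
      exact (mem_nonunits_iff.mp ((mem_maximalIdeal _).mp hx)) (h1.map f)
    change (f y) ^ p ^ e ∈ Ideal.map f (psI (Fin N) k (p ^ e))
    rw [← map_pow]
    exact Ideal.mem_map_of_mem f (pow_mem_psI hy)
  · rw [psI, Ideal.map_span, Ideal.span_le]
    rintro _ ⟨_, ⟨i, rfl⟩, rfl⟩
    change f ((MvPowerSeries.X i : MvPowerSeries (Fin N) k) ^ p ^ e) ∈ bracket (maximalIdeal A) (p ^ e)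
    rw [map_pow]
    refine Ideal.subset_span ⟨f (MvPowerSeries.X i), ?_, rfl⟩
    change f (MvPowerSeries.X i) ∈ maximalIdeal A
    rw [mem_maximalIdeal, mem_nonunits_iff]
    intro hu
    obtain ⟨a, ha⟩ := hu.exists_right_inv
    obtain ⟨b, rfl⟩ := hf a
    have h1 : IsUnit (1 - (MvPowerSeries.X i : MvPowerSeries (Fin N) k) * b) := by
      rw [MvPowerSeries.isUnit_iff_constantCoeff]
      simp
    have h2 := h1.map f
    rw [map_sub, map_one, map_mul, ha, sub_self] at h2
    exact not_isUnit_zero h2

theorem length_quot {p : ℕ} [Fact p.Prime] [CharP k p] {e : ℕ} {A : Type*} [CommRing A]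
    [IsLocalRing A] (f : MvPowerSeries (Fin N) k →+* A) (hf : Function.Surjective f) :
    Module.length A (A ⧸ bracket (maximalIdeal A) (p ^ e)) =
      finrank k (MvPowerSeries (Fin N) k ⧸ (RingHom.ker f ⊔ psI (Fin N) k (p ^ e))) := by
  set S := MvPowerSeries (Fin N) k with hS
  set J := bracket (maximalIdeal A) (p ^ e) with hJ
  letI : Algebra S A := f.toAlgebra
  have h0 : Function.Surjective (algebraMap S A) := hf
  let g : S →ₗ[S] A ⧸ J := Algebra.linearMap S (A ⧸ J)
  have hg : Function.Surjective g := by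
    intro x
    obtain ⟨a, rfl⟩ := Ideal.Quotient.mk_surjective x
    obtain ⟨s, rfl⟩ := hf a
    exact ⟨s, rfl⟩
  have hker : LinearMap.ker g = RingHom.ker f ⊔ psI (Fin N) k (p ^ e) := by
    have h1 : LinearMap.ker g = Ideal.comap f J := by
      ext s
      rw [LinearMap.mem_ker, Ideal.mem_comap, ← Ideal.Quotient.eq_zero_iff_mem]
      rfl
    rw [h1, hJ, bracket_eq f hf, Ideal.comap_map_of_surjective f hf, sup_comm]
    rfl
  have h1 : Module.length A (A ⧸ J) = Module.length S (A ⧸ J) :=
    (Module.length_eq_of_surjective h0).symm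
  have h2 : Module.length S (A ⧸ J) = Module.length S (S ⧸ LinearMap.ker g) :=
    (g.quotKerEquivOfSurjective hg).symm.length_eq
  rw [h1, h2, hker]
  have hfin : FiniteDimensional k (S ⧸ (RingHom.ker f ⊔ psI (Fin N) k (p ^ e))) := by
    have h3 : psI (Fin N) k (p ^ e) ≤ RingHom.ker f ⊔ psI (Fin N) k (p ^ e) := le_sup_right
    exact Module.Finite.of_surjective (Ideal.Quotient.factorₐ k h3).toLinearMap
      (Ideal.Quotient.factor_surjective h3)
  exact length_eq_finrank _

end

end Pool.Agent.Lib.MP_1bbd88_ag
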