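import Pool.Agent.Lib.MP_1bbd88_ag.Cases

/-! Asymptotic lower bounds for the number of admissible exponents. -/

namespace Pool.Agent.Lib.MP_1bbd88_ag

open Finset Filter Topology

theorem lim_of_cont (F : ℝ → ℝ) (hF : Continuous F) (g : ℕ → ℝ) (m : ℕ)
    (h : ∀ q : ℕ, 0 < q → g q = (q : ℝ) ^ m * F ((q : ℝ)⁻¹)) :
    Tendsto (fun q : ℕ => g q / (q : ℝ) ^ m) atTop (𝓝 (F 0)) := by
  have h1 : Tendsto (fun q : ℕ => F ((q : ℝ)⁻¹)) atTop (𝓝 (F 0)) :=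
    (hF.tendsto 0).comp tendsto_inv_atTop_nhds_zero_nat
  refine h1.congr' ?_
  filter_upwards [eventually_gt_atTop 0] with q hq
  have h2 : ((q : ℝ) ^ m) ≠ 0 := by positivity
  rw [h q hq, mul_div_cancel_left₀ _ h2]

/-- the statement about the asymptotic number of admissible pairs -/
def Asym (a b : ℕ) : Prop := ∃ (g : ℕ → ℝ) (L : ℝ), 13 / 8 ≤ L ∧
  Tendsto (fun q : ℕ => g q / (q : ℝ) ^ (a + b - 1)) atTop (𝓝 L) ∧
  ∀ q, 2 ≤ q → Many a b q (g q)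

theorem Asym.swap {a b : ℕ} (h : Asym a b) : Asym b a := by
  obtain ⟨g, L, h1, h2, h3⟩ := h
  refine ⟨g, L, h1, ?_, fun q hq => (h3 q hq).swap⟩
  rwa [add_comm b a]

theorem asym_jensen (a b : ℕ) (h : (13 / 8 : ℝ) ≤ (b / 2 : ℝ) ^ a / a.factorial) :
    Asym (a + 1) b := by
  refine ⟨fun q => (q : ℝ) ^ b * ((b * q - b + 2 : ℝ) / 2) ^ a / a.factorial,
    (b / 2 : ℝ) ^ a / a.factorial, h, ?_, fun q hq => many_jensen (by omega)⟩
  have h1 := lim_of_cont (fun x => ((b - b * x + 2 * x) / 2) ^ a / a.factorial)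
    (by fun_prop) (fun q => (q : ℝ) ^ b * ((b * q - b + 2 : ℝ) / 2) ^ a / a.factorial)
    (a + 1 + b - 1) (by
      intro q hq
      have hq' : (q : ℝ) ≠ 0 := by positivity
      have e1 : a + 1 + b - 1 = b + a := by omega
      have e2 : (b * q - b + 2 : ℝ) / 2 = q * ((b - b * (q : ℝ)⁻¹ + 2 * (q : ℝ)⁻¹) / 2) := by
        field_simp
      rw [e1, e2, mul_pow, pow_add]
      ring)
  simpa using h1

theorem fact_ratio (n : ℕ) (hn : 4 ≤ n) :
    (13 / 8 : ℝ) ≤ (((n : ℝ) + 1) / 2) ^ n / n.factorial := by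
  induction n, hn using Nat.le_induction with
  | base => norm_num [Nat.factorial]
  | succ n hn ih =>
    refine ih.trans ?_
    have h1 : (0 : ℝ) < n.factorial := by positivity
    rw [Nat.factorial_succ, div_le_div_iff₀ h1 (by positivity)]
    push_cast
    have h2 : (1 : ℝ) + (n + 1 : ℕ) * (1 / ((n : ℝ) + 1)) ≤ (1 + 1 / ((n : ℝ) + 1)) ^ (n + 1) :=
      one_add_mul_le_pow (by
        have : (0 : ℝ) ≤ 1 / ((n : ℝ) + 1) := by positivity
        linarith) (n + 1)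
    have h3 : (1 : ℝ) + (n + 1 : ℕ) * (1 / ((n : ℝ) + 1)) = 2 := by
      push_cast
      field_simp
      norm_num
    rw [h3] at h2
    have h4 : ((n : ℝ) + 1 + 1) / 2 = (((n : ℝ) + 1) / 2) * (1 + 1 / ((n : ℝ) + 1)) := by
      field_simp
    rw [h4, mul_pow, pow_succ (((n : ℝ) + 1) / 2) n]
    have h5 : (0 : ℝ) < (((n : ℝ) + 1) / 2) ^ n := by positivity
    have h6 : (((n : ℝ) + 1) / 2) ^ n * (((n : ℝ) + 1) * n.factorial) =
        (((n : ℝ) + 1) / 2) ^ n * (((n : ℝ) + 1) / 2) * 2 * n.factorial := by ring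
    rw [h6]
    have h7 : (0 : ℝ) ≤ (((n : ℝ) + 1) / 2) ^ n * (((n : ℝ) + 1) / 2) := by positivity
    have h8 := mul_le_mul_of_nonneg_left h2 h7
    exact mul_le_mul_of_nonneg_right h8 h1.le

theorem jensen_const {a b : ℕ} (ha : 1 ≤ a) (hab : a + 1 ≤ b)
    (h : ¬ (a = 1 ∧ b = 2) ∧ ¬ (a = 1 ∧ b = 3) ∧ ¬ (a = 2 ∧ b = 3) ∧ ¬ (a = 3 ∧ b = 4)) :
    (13 / 8 : ℝ) ≤ (b / 2 : ℝ) ^ a / a.factorial := by
  rcases Nat.lt_or_ge a 4 with h4 | h4
  · obtain ⟨h1, h2, h3, h5⟩ := h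
    have hb : a ≤ 2 ∧ 4 ≤ b ∨ a = 3 ∧ 5 ≤ b := by omega
    interval_cases a
    · have : (4 : ℝ) ≤ b := by
        have : 4 ≤ b := by omega
        exact_mod_cast this
      norm_num [Nat.factorial]
      linarith
    · have : (4 : ℝ) ≤ b := by
        have : 4 ≤ b := by omega
        exact_mod_cast this
      norm_num [Nat.factorial]
      nlinarith
    · have h6 : (5 : ℝ) ≤ b := by
        have : 5 ≤ b := by omega
        exact_mod_cast this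
      have h7 : ((5 : ℝ) / 2) ^ 3 ≤ (b / 2 : ℝ) ^ 3 := by
        apply pow_le_pow_left₀ (by norm_num)
        linarith
      norm_num [Nat.factorial] at h7 ⊢
      linarith
  · refine (fact_ratio a h4).trans ?_
    refine div_le_div_of_nonneg_right ?_ (by positivity)
    apply pow_le_pow_left₀ (by positivity)
    have : ((a : ℝ) + 1) ≤ b := by exact_mod_cast hab
    linarith

theorem asym_two_three : Asym 2 3 := by
  refine ⟨fun q => (q : ℝ) ^ 3 * ((3 * q - 3 + 2 : ℝ) / 2) + 3 * (((q : ℝ) - 1) ^ 4 / 24), 13 / 8,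
    le_refl _, ?_, ?_⟩
  · have h1 := lim_of_cont (fun x => (3 - 3 * x + 2 * x) / 2 + 3 * ((1 - x) ^ 4 / 24))
      (by fun_prop) (fun q => (q : ℝ) ^ 3 * ((3 * q - 3 + 2 : ℝ) / 2) + 3 * (((q : ℝ) - 1) ^ 4 / 24))
      4 (by
        intro q hq
        have hq' : (q : ℝ) ≠ 0 := by positivity
        field_simp)
    have e : ((3 - 3 * 0 + 2 * 0) / 2 + 3 * ((1 - 0) ^ 4 / 24) : ℝ) = 13 / 8 := by norm_num
    rw [e] at h1
    exact h1
  · intro q hq
    refine (many_two_three hq).mono ?_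
    have h2 := Nat.pow_sub_le_descFactorial (q + 2) 4
    rw [Nat.descFactorial_eq_factorial_mul_choose] at h2
    have h3 : q + 2 + 1 - 4 = q - 1 := by omega
    rw [h3] at h2
    have h4 : (((q - 1 : ℕ) : ℝ)) ^ 4 ≤ 24 * ((q + 2).choose 4 : ℝ) := by
      have : (q - 1) ^ 4 ≤ 24 * (q + 2).choose 4 := by
        simpa [Nat.factorial] using h2
      exact_mod_cast this
    rw [Nat.cast_sub (by omega), Nat.cast_one] at h4
    linarith

theorem asym_three_three : Asym 3 3 := by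
  refine ⟨_, 13 / 8, le_refl _, ?_, fun q _ => many_three_three q⟩
  have h1 := lim_of_cont (fun x => 2 * ((x ^ 2 + 2 * (3 * ((x - x ^ 2) / 2)) +
      3 * ((1 - x ^ 2) / 12) + (3 * ((1 - x) / 2)) ^ 2) / 2) - (7 + x ^ 2) / 8)
    (by fun_prop) (fun q => (2 * ((q : ℝ) ^ 3 * (1 + 2 * (3 * ((q - 1) / 2)) +
      3 * ((q ^ 2 - 1) / 12) + (3 * ((q - 1) / 2 : ℝ)) ^ 2) / 2) -
        (q : ℝ) ^ 3 * (7 * q ^ 2 + 1) / 8)) 5 (by
      intro q hq
      have hq' : (q : ℝ) ≠ 0 := by positivity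
      field_simp)
  have e : (2 * ((0 ^ 2 + 2 * (3 * ((0 - 0 ^ 2) / 2)) +
      3 * ((1 - 0 ^ 2) / 12) + (3 * ((1 - 0) / 2)) ^ 2) / 2) - (7 + 0 ^ 2) / 8 : ℝ) = 13 / 8 := by
    norm_num
  rw [e] at h1
  exact h1

theorem asym_four_four : Asym 4 4 := by
  refine ⟨fun q => 2 * ((q : ℝ) ^ 4 * ((4 * q - 4 + 2 : ℝ) / 2) ^ 3 / 6) - (q : ℝ) ^ 7, 5 / 3,
    by norm_num, ?_, fun q hq => many_four_four (by omega)⟩
  have h1 := lim_of_cont (fun x => 2 * (((4 - 4 * x + 2 * x) / 2) ^ 3 / 6) - 1)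
    (by fun_prop) (fun q => 2 * ((q : ℝ) ^ 4 * ((4 * q - 4 + 2 : ℝ) / 2) ^ 3 / 6) - (q : ℝ) ^ 7)
    7 (by
      intro q hq
      have hq' : (q : ℝ) ≠ 0 := by positivity
      field_simp)
  have e : (2 * (((4 - 4 * 0 + 2 * 0) / 2) ^ 3 / 6) - 1 : ℝ) = 5 / 3 := by norm_num
  rw [e] at h1
  exact h1

theorem asym_of_le {a b : ℕ} (ha : 2 ≤ a) (hab : a ≤ b) (h : ¬ (a = 2 ∧ b = 2)) : Asym a b := by
  by_cases h1 : a = 2 ∧ b = 3
  · obtain ⟨rfl, rfl⟩ := h1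
    exact asym_two_three
  by_cases h2 : a = 3 ∧ b = 3
  · obtain ⟨rfl, rfl⟩ := h2
    exact asym_three_three
  by_cases h3 : a = 4 ∧ b = 4
  · obtain ⟨rfl, rfl⟩ := h3
    exact asym_four_four
  obtain ⟨a', rfl⟩ : ∃ a', a = a' + 1 := ⟨a - 1, by omega⟩
  exact asym_jensen a' b (jensen_const (by omega) hab (by omega))

theorem asym {a b : ℕ} (ha : 2 ≤ a) (hb : 2 ≤ b) (h : ¬ (a = 2 ∧ b = 2)) : Asym a b := by
  rcases le_total a b with h1 | h1
  · exact asym_of_le ha h1 h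
  · exact (asym_of_le hb h1 (by omega)).swap

end Pool.Agent.Lib.MP_1bbd88_ag
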