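import Mathlib

/-! Linear algebra: dimension of quotients by nilpotent elements. -/

namespace Pool.Agent.Lib.MP_1bbd88_ag

open Module

theorem finrank_ker_pow_le {k V : Type*} [Field k] [AddCommGroup V] [Module k V]
    [FiniteDimensional k V] (f : V →ₗ[k] V) (n : ℕ) :
    finrank k (LinearMap.ker (f ^ n)) ≤ n * finrank k (LinearMap.ker f) := by
  induction n with
  | zero =>
    have : LinearMap.ker (f ^ 0) = ⊥ := by
      rw [pow_zero]
      exact LinearMap.ker_id
    rw [this]
    simp
  | succ n ih =>
    let K := LinearMap.ker (f ^ (n + 1))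
    let g : K →ₗ[k] V := (f ^ n).comp K.subtype
    have h1 := LinearMap.finrank_range_add_finrank_ker g
    have h2 : finrank k (LinearMap.range g) ≤ finrank k (LinearMap.ker f) := by
      apply Submodule.finrank_mono
      rintro _ ⟨x, rfl⟩
      have hx : (f ^ (n + 1)) x.1 = 0 := x.2
      rw [pow_succ'] at hx
      exact hx
    have h3 : finrank k (LinearMap.ker g) ≤ finrank k (LinearMap.ker (f ^ n)) := by
      rw [← Submodule.finrank_map_subtype_eq K (LinearMap.ker g)]
      apply Submodule.finrank_mono
      rintro _ ⟨x, hx, rfl⟩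
      exact hx
    change finrank k K ≤ _
    calc finrank k K = finrank k (LinearMap.range g) + finrank k (LinearMap.ker g) := h1.symm
      _ ≤ finrank k (LinearMap.ker f) + n * finrank k (LinearMap.ker f) :=
        Nat.add_le_add h2 (h3.trans ih)
      _ = (n + 1) * finrank k (LinearMap.ker f) := by ring

section

variable {k T : Type*} [Field k] [CommRing T] [Algebra k T] [FiniteDimensional k T]

theorem finrank_quot_add (I : Ideal T) :
    finrank k (T ⧸ I) + finrank k (I.restrictScalars k) = finrank k T :=
  Submodule.finrank_quotient_add_finrank (I.restrictScalars k)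

theorem finrank_quot_le_of_le {I J : Ideal T} (h : I ≤ J) :
    finrank k (T ⧸ J) ≤ finrank k (T ⧸ I) :=
  LinearMap.finrank_le_finrank_of_surjective (f := (Ideal.Quotient.factorₐ k h).toLinearMap)
    (Ideal.Quotient.factor_surjective h)

theorem finrank_le_mul_quot {w : T} {q : ℕ} (hw : w ^ q = 0) :
    finrank k T ≤ q * finrank k (T ⧸ Ideal.span {w}) := by
  let f : T →ₗ[k] T := LinearMap.mulLeft k w
  have h0 : f ^ q = 0 := by
    rw [LinearMap.pow_mulLeft, hw]
    exact LinearMap.mulLeft_zero_eq_zero k T
  have h1 := finrank_ker_pow_le f q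
  rw [h0, LinearMap.ker_zero, finrank_top] at h1
  have h2 := LinearMap.finrank_range_add_finrank_ker f
  have h3 : LinearMap.range f = (Ideal.span {w} : Ideal T).restrictScalars k := by
    ext x
    rw [LinearMap.mem_range, Submodule.restrictScalars_mem, Ideal.mem_span_singleton']
    constructor
    · rintro ⟨y, rfl⟩
      exact ⟨y, by simp [f, mul_comm]⟩
    · rintro ⟨y, rfl⟩
      exact ⟨y, by simp [f, mul_comm]⟩
  have h4 := finrank_quot_add (k := k) (Ideal.span {w} : Ideal T)
  rw [← h3] at h4
  have h5 : finrank k (T ⧸ Ideal.span {w}) = finrank k (LinearMap.ker f) := by omega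
  rwa [h5]

theorem finrank_le_pow_mul_quot {ι : Type*} [DecidableEq ι] {w : ι → T} {q : ℕ} (s : Finset ι)
    (hw : ∀ i ∈ s, w i ^ q = 0) :
    finrank k T ≤ q ^ s.card * finrank k (T ⧸ Ideal.span (w '' s)) := by
  induction s using Finset.induction_on with
  | empty =>
    have e : Ideal.span (w '' ((∅ : Finset ι) : Set ι)) = ⊥ := by simp
    rw [e, Finset.card_empty, pow_zero, one_mul]
    exact (LinearEquiv.finrank_eq (AlgEquiv.quotientBot k T).toLinearEquiv).ge
  | insert i s hi ih =>
    have h1 := ih fun j hj => hw j (Finset.mem_insert_of_mem hj)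
    set I := Ideal.span (w '' (s : Set ι)) with hI
    have h2 : (Ideal.Quotient.mk I (w i)) ^ q = 0 := by
      rw [← map_pow, hw i (Finset.mem_insert_self i s), map_zero]
    have h3 := finrank_le_mul_quot (k := k) h2
    have h4 : finrank k ((T ⧸ I) ⧸ Ideal.span {Ideal.Quotient.mk I (w i)}) =
        finrank k (T ⧸ Ideal.span (w '' ((insert i s : Finset ι) : Set ι))) := by
      have e1 : Ideal.span {Ideal.Quotient.mk I (w i)} =
          (Ideal.span {w i}).map (Ideal.Quotient.mkₐ k I) := by
        rw [Ideal.map_span, Set.image_singleton]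
        rfl
      have e2 : Ideal.span (w '' ((insert i s : Finset ι) : Set ι)) = I ⊔ Ideal.span {w i} := by
        rw [Finset.coe_insert, Set.image_insert_eq, Ideal.span_insert, sup_comm]
      rw [e1, e2]
      exact LinearEquiv.finrank_eq (DoubleQuot.quotQuotEquivQuotSupₐ k I (Ideal.span {w i})).toLinearEquiv
    rw [h4] at h3
    calc finrank k T ≤ q ^ s.card * finrank k (T ⧸ I) := h1
      _ ≤ q ^ s.card * (q * finrank k (T ⧸ Ideal.span (w '' ((insert i s : Finset ι) : Set ι)))) :=
        Nat.mul_le_mul_left _ h3
      _ = _ := by rw [Finset.card_insert_of_notMem hi, pow_succ, mul_assoc]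

end

end Pool.Agent.Lib.MP_1bbd88_ag
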