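import Pool.Agent.Lib.MP_1bbd88_ag.Len

/-! The lower bound for the length of `A / m^[q]`, `A` a determinantal ring. -/

namespace Pool.Agent.Lib.MP_1bbd88_ag

open Module IsLocalRing

/-- the colength of the ideal of `t`-minors of the generic `a × b` matrix plus the `q`-th powers -/
noncomputable def genColen (k : Type*) [Field k] (t a b q : ℕ) : ℕ :=
  finrank k (MvPolynomial (Fin a × Fin b) k ⧸
      (minors t (genMat a b k) ⊔ powI (Fin a × Fin b) k q))

section

variable {k : Type*} [Field k] {p : ℕ} [Fact p.Prime] [CharP k p] [Infinite k]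

theorem lower_finrank {N : ℕ} (e t a b s : ℕ)
    (M : Matrix (Fin (a + s)) (Fin (b + s)) (MvPowerSeries (Fin N) k))
    (hM : ∀ i j, MvPowerSeries.constantCoeff (M i j) = 0) :
    (p ^ e) ^ N * genColen k t a b (p ^ e) ≤ (p ^ e) ^ (a * b) *
      finrank k (MvPowerSeries (Fin N) k ⧸ (minors (t + s) M ⊔ psI (Fin N) k (p ^ e))) := by
  let P := psI (Fin N) k (p ^ e)
  have h1 := colength (k := k) (p := p) (A := MvPowerSeries (Fin N) k ⧸ psI (Fin N) k (p ^ e))
      e t a b s (M.map (Ideal.Quotient.mk P)) (by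
    intro i j
    rw [Matrix.map_apply, ← map_pow, Ideal.Quotient.eq_zero_iff_mem]
    exact pow_mem_psI (hM i j))
  rw [finrank_psI] at h1
  have h2 : finrank k ((MvPowerSeries (Fin N) k ⧸ P) ⧸ minors (t + s) (M.map (Ideal.Quotient.mk P)))
      = finrank k (MvPowerSeries (Fin N) k ⧸ (minors (t + s) M ⊔ P)) := by
    rw [← map_minors, sup_comm]
    exact LinearEquiv.finrank_eq (DoubleQuot.quotQuotEquivQuotSupₐ k P (minors (t + s) M)).toLinearEquiv
  rw [h2] at h1
  exact h1

/-- length bound for a local ring `A` which is a quotient of a power series ring by the ideal of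
`(t + s)`-minors of an `(a + s) × (b + s)` matrix without units -/
theorem lower_length {N : ℕ} (e t a b s : ℕ)
    (M : Matrix (Fin (a + s)) (Fin (b + s)) (MvPowerSeries (Fin N) k))
    (hM : ∀ i j, MvPowerSeries.constantCoeff (M i j) = 0) {A : Type*} [CommRing A]
    [IsLocalRing A] (f : MvPowerSeries (Fin N) k →+* A) (hf : Function.Surjective f)
    (hk : RingHom.ker f = minors (t + s) M) :
    (p ^ e) ^ N * genColen k t a b (p ^ e) ≤ (p ^ e) ^ (a * b) *
      (Module.length A (A ⧸ bracket (maximalIdeal A) (p ^ e))).toNat := by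
  rw [length_quot f hf, hk, ENat.toNat_natCast]
  exact lower_finrank e t a b s M hM

end

end Pool.Agent.Lib.MP_1bbd88_ag
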