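import Pool.Agent.Lib.MP_1bbd88_ag.Pivot

/-! Power series rings modulo powers of the variables. -/

namespace Pool.Agent.Lib.MP_1bbd88_ag

open Module

theorem pow_char_zero_add {R : Type*} [CommRing R] {p : ℕ} [Fact p.Prime] (hp : (p : R) = 0)
    {x y : R} {e : ℕ} (hx : x ^ p ^ e = 0) (hy : y ^ p ^ e = 0) : (x + y) ^ p ^ e = 0 := by
  rw [← sub_neg_eq_add]
  exact pow_char_zero_sub hp hx (by rw [neg_pow, hy, mul_zero])

/-- the ideal `(X_i ^ q)` of the power series ring -/
noncomputable def psI (σ : Type*) (k : Type*) [CommRing k] (q : ℕ) :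
    Ideal (MvPowerSeries σ k) :=
  Ideal.span (Set.range fun i => (MvPowerSeries.X i : MvPowerSeries σ k) ^ q)

section

variable {σ k : Type*} [CommRing k]

theorem mem_span_of_coeff [DecidableEq σ] (q : ℕ) (s : Finset σ) :
    ∀ f : MvPowerSeries σ k, (∀ α : σ →₀ ℕ, (∀ i ∈ s, α i < q) → MvPowerSeries.coeff α f = 0) →
      f ∈ Ideal.span ((fun i => (MvPowerSeries.X i : MvPowerSeries σ k) ^ q) '' (s : Set σ)) := by
  induction s using Finset.induction_on with
  | empty =>
    intro f hf
    have : f = 0 := by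
      ext α
      rw [hf α (by simp), map_zero]
    rw [this]
    exact Ideal.zero_mem _
  | insert a s ha ih =>
    intro f hf
    let f1 : MvPowerSeries σ k := fun α => if q ≤ α a then MvPowerSeries.coeff α f else 0
    have h1 : ∀ α, MvPowerSeries.coeff α f1 = if q ≤ α a then MvPowerSeries.coeff α f else 0 :=
      fun α => rfl
    have h2 : f1 ∈ Ideal.span ((fun i => (MvPowerSeries.X i : MvPowerSeries σ k) ^ q) ''
        ((insert a s : Finset σ) : Set σ)) := by
      have h3 : (MvPowerSeries.X a : MvPowerSeries σ k) ^ q ∣ f1 := by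
        rw [MvPowerSeries.X_pow_dvd_iff]
        intro m hm
        rw [h1, if_neg (by omega)]
      obtain ⟨g, hg⟩ := h3
      rw [hg]
      exact Ideal.mul_mem_right _ _ (Ideal.subset_span ⟨a, by simp, rfl⟩)
    have h3 : f - f1 ∈ Ideal.span ((fun i => (MvPowerSeries.X i : MvPowerSeries σ k) ^ q) ''
        (s : Set σ)) := by
      apply ih
      intro α hα
      rw [map_sub, h1]
      split_ifs with h4
      · rw [sub_self]
      · rw [sub_zero]
        apply hf
        intro i hi
        rcases Finset.mem_insert.mp hi with rfl | hi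
        · omega
        · exact hα i hi
    have h4 : f = f1 + (f - f1) := by ring
    rw [h4]
    refine Ideal.add_mem _ h2 (Ideal.span_mono ?_ h3)
    exact Set.image_mono (by simp)

/-- the ideal of power series without monomials of exponents `< q` -/
def lowK (σ k : Type*) [CommRing k] (q : ℕ) : Ideal (MvPowerSeries σ k) where
  carrier := {f | ∀ α : σ →₀ ℕ, (∀ i, α i < q) → MvPowerSeries.coeff α f = 0}
  add_mem' := by
    intro f g hf hg α hα
    rw [map_add, hf α hα, hg α hα, add_zero]
  zero_mem' := fun α _ => map_zero _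
  smul_mem' := by
    classical
    intro a f hf α hα
    rw [smul_eq_mul, MvPowerSeries.coeff_mul]
    refine Finset.sum_eq_zero fun x hx => ?_
    rw [hf x.2 fun i => ?_, mul_zero]
    have h1 := Finset.HasAntidiagonal.mem_antidiagonal.mp hx
    have h2 : x.1 i + x.2 i = α i := by rw [← h1]; rfl
    have := hα i
    omega

theorem mem_psI_iff [Finite σ] {q : ℕ} {f : MvPowerSeries σ k} :
    f ∈ psI σ k q ↔ ∀ α : σ →₀ ℕ, (∀ i, α i < q) → MvPowerSeries.coeff α f = 0 := by
  classical
  have := Fintype.ofFinite σ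
  constructor
  · intro hf
    have h1 : psI σ k q ≤ lowK σ k q := by
      rw [psI, Ideal.span_le]
      rintro _ ⟨i, rfl⟩ α hα
      exact MvPowerSeries.X_pow_dvd_iff.mp (dvd_refl _) α (hα i)
    exact h1 hf
  · intro h
    have := mem_span_of_coeff q Finset.univ f fun α hα => h α fun i => hα i (Finset.mem_univ i)
    rwa [Finset.coe_univ, Set.image_univ] at this

end

section

variable {k : Type*} [Field k] {N : ℕ}

/-- the coefficients at the exponents `< q` -/
noncomputable def coefL (k : Type*) [Field k] (N q : ℕ) :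
    MvPowerSeries (Fin N) k →ₗ[k] ((Fin N → Fin q) → k) where
  toFun f v := MvPowerSeries.coeff (Finsupp.equivFunOnFinite.symm fun i => (v i : ℕ)) f
  map_add' f g := by
    funext v
    exact map_add _ _ _
  map_smul' c f := by
    funext v
    exact MvPowerSeries.coeff_smul _ _ _

theorem coefL_surj (q : ℕ) : Function.Surjective (coefL k N q) := by
  classical
  intro w
  let w' : (Fin N → ℕ) → k := fun a => if h : ∀ i, a i < q then w fun i => ⟨a i, h i⟩ else 0
  refine ⟨fun α => w' α, ?_⟩
  funext v
  change w' (fun i => (v i : ℕ)) = w v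
  exact dif_pos fun i => (v i).2

theorem coefL_ker (q : ℕ) :
    LinearMap.ker (coefL k N q) = (psI (Fin N) k q).restrictScalars k := by
  ext f
  rw [LinearMap.mem_ker, Submodule.restrictScalars_mem, mem_psI_iff]
  constructor
  · intro h α hα
    have h1 := congrFun h fun i => ⟨α i, hα i⟩
    have h2 : (Finsupp.equivFunOnFinite.symm fun i => α i) = α := by ext i; rfl
    change MvPowerSeries.coeff (Finsupp.equivFunOnFinite.symm fun i => α i) f = 0 at h1
    rwa [h2] at h1
  · intro h
    funext v
    exact h _ fun i => (v i).2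

/-- `S ⧸ (X_i ^ q)` as a vector space -/
noncomputable def psEquiv (k : Type*) [Field k] (N q : ℕ) :
    (MvPowerSeries (Fin N) k ⧸ psI (Fin N) k q) ≃ₗ[k] ((Fin N → Fin q) → k) :=
  (Submodule.Quotient.restrictScalarsEquiv k (psI (Fin N) k q)).symm.trans
    ((Submodule.quotEquivOfEq _ _ (coefL_ker q).symm).trans
      ((coefL k N q).quotKerEquivOfSurjective (coefL_surj q)))

instance finite_psI (q : ℕ) : FiniteDimensional k (MvPowerSeries (Fin N) k ⧸ psI (Fin N) k q) :=
  Module.Finite.equiv (psEquiv k N q).symm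

theorem finrank_psI (q : ℕ) :
    finrank k (MvPowerSeries (Fin N) k ⧸ psI (Fin N) k q) = q ^ N := by
  rw [(psEquiv k N q).finrank_eq, finrank_fintype_fun_eq_card, Fintype.card_fun,
    Fintype.card_fin, Fintype.card_fin]

theorem mem_psI_one_of_constantCoeff {f : MvPowerSeries (Fin N) k}
    (hf : MvPowerSeries.constantCoeff f = 0) : f ∈ psI (Fin N) k 1 := by
  rw [mem_psI_iff]
  intro α hα
  have : α = 0 := by
    ext i
    have := hα i
    simp only [Finsupp.coe_zero, Pi.zero_apply]
    omega
  rw [this]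
  exact hf

theorem pow_mem_psI {p : ℕ} [Fact p.Prime] [CharP k p] {e : ℕ} {f : MvPowerSeries (Fin N) k}
    (hf : MvPowerSeries.constantCoeff f = 0) : f ^ p ^ e ∈ psI (Fin N) k (p ^ e) := by
  have h1 := mem_psI_one_of_constantCoeff hf
  have hp : (p : MvPowerSeries (Fin N) k ⧸ psI (Fin N) k (p ^ e)) = 0 := cast_char_eq_zero k _
  rw [← Ideal.Quotient.eq_zero_iff_mem, map_pow]
  refine Submodule.span_induction (p := fun f _ =>
    (Ideal.Quotient.mk (psI (Fin N) k (p ^ e)) f) ^ p ^ e = 0) ?_ ?_ ?_ ?_ h1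
  · rintro _ ⟨i, rfl⟩
    rw [← map_pow, Ideal.Quotient.eq_zero_iff_mem]
    change ((MvPowerSeries.X i : MvPowerSeries (Fin N) k) ^ 1) ^ p ^ e ∈ _
    rw [pow_one]
    exact Ideal.subset_span ⟨i, rfl⟩
  · rw [map_zero]
    exact zero_pow (pow_ne_zero _ (Fact.out (p := p.Prime)).ne_zero)
  · intro x y _ _ hx hy
    rw [map_add]
    exact pow_char_zero_add hp hx hy
  · intro a x _ hx
    rw [smul_eq_mul, map_mul, mul_pow, hx, mul_zero]

end

end Pool.Agent.Lib.MP_1bbd88_ag
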