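import Pool.Agent.Lib.MP_1bbd88_ag.Lin

/-! Semicontinuity of the colength in a one parameter family. -/

namespace Pool.Agent.Lib.MP_1bbd88_ag

open Module Polynomial

/-- linear independence is an open condition on the line -/
theorem linearIndependent_eval {k A : Type*} [Field k] [Infinite k] [CommRing A] [Algebra k A]
    {r : ℕ} (V : Fin r → A[X]) (h : LinearIndependent k fun l => (V l).eval 0) :
    ∃ c : k, c ≠ 0 ∧ LinearIndependent k fun l => (V l).eval (algebraMap k A c) := by
  classical
  obtain ⟨π, hπ⟩ := LinearMap.exists_leftInverse_of_injective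
    (Finsupp.linearCombination k fun l => (V l).eval 0) (linearIndependent_iff_ker.mp h)
  -- coordinates
  let P : Matrix (Fin r) (Fin r) k[X] := fun l m =>
    ∑ j ∈ Finset.range ((V l).natDegree + 1), C (π ((V l).coeff j) m) * X ^ j
  have hP : ∀ (c : k) (l m : Fin r), (P l m).eval c = π ((V l).eval (algebraMap k A c)) m := by
    intro c l m
    have e1 : P l m = ∑ j ∈ Finset.range ((V l).natDegree + 1), C (π ((V l).coeff j) m) * X ^ j :=
      rfl
    rw [e1, eval_eq_sum_range (p := V l), map_sum, Finsupp.finset_sum_apply, eval_finset_sum]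
    refine Finset.sum_congr rfl fun j _ => ?_
    rw [eval_mul, eval_C, eval_pow, eval_X, ← map_pow, mul_comm ((V l).coeff j),
      ← Algebra.smul_def, map_smul, Finsupp.smul_apply, smul_eq_mul, mul_comm]
  have hdet : ∀ c : k, P.det.eval c =
      (Matrix.of fun l m => π ((V l).eval (algebraMap k A c)) m : Matrix (Fin r) (Fin r) k).det := by
    intro c
    rw [← coe_evalRingHom, RingHom.map_det]
    congr 1
    ext l m
    exact hP c l m
  have h0 : P.det.eval 0 = 1 := by
    rw [hdet 0]
    have : (Matrix.of fun l m => π ((V l).eval (algebraMap k A 0)) m : Matrix (Fin r) (Fin r) k)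
        = 1 := by
      ext l m
      have h1 : π ((V l).eval 0) = Finsupp.single l 1 := by
        have := congrArg (fun f => f (Finsupp.single l 1)) hπ
        simpa using this
      rw [Matrix.of_apply, map_zero, h1, Matrix.one_apply, Finsupp.single_apply]
    rw [this, Matrix.det_one]
  have hne : X * P.det ≠ 0 := by
    intro h1
    rcases mul_eq_zero.mp h1 with h2 | h2
    · exact X_ne_zero h2
    · rw [h2, eval_zero] at h0
      exact zero_ne_one h0
  obtain ⟨c, hc⟩ : ∃ c : k, (X * P.det).eval c ≠ 0 := by
    by_contra hcon
    push Not at hcon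
    exact hne (Polynomial.funext fun c => by rw [hcon c, eval_zero])
  rw [eval_mul, eval_X] at hc
  refine ⟨c, left_ne_zero_of_mul hc, ?_⟩
  have h3 := right_ne_zero_of_mul hc
  rw [hdet c] at h3
  have h4 := Matrix.linearIndependent_rows_of_det_ne_zero h3
  let ψ : A →ₗ[k] (Fin r → k) := Finsupp.lcoeFun.comp π
  refine LinearIndependent.of_comp ψ ?_
  exact h4

variable {k A : Type*} [Field k] [Infinite k] [CommRing A] [Algebra k A] [FiniteDimensional k A]

theorem semicont {ι : Type*} (g : ι → A[X]) : ∃ c : k, c ≠ 0 ∧
    finrank k (A ⧸ Ideal.span (Set.range fun i => (g i).eval (algebraMap k A c))) ≤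
      finrank k (A ⧸ Ideal.span (Set.range fun i => (g i).eval 0)) := by
  classical
  set I0 := Ideal.span (Set.range fun i => (g i).eval 0) with hI0
  -- the spanning set
  let s : Set A := {x | ∃ b i, x = b * (g i).eval 0}
  have hs : Submodule.span k s = I0.restrictScalars k := by
    apply le_antisymm
    · rw [Submodule.span_le]
      rintro _ ⟨b, i, rfl⟩
      exact I0.mul_mem_left _ (Ideal.subset_span ⟨i, rfl⟩)
    · intro x hx
      have hx' : x ∈ I0 := hx
      rw [hI0] at hx'
      refine Submodule.span_induction (p := fun x _ => x ∈ Submodule.span k s) ?_ ?_ ?_ ?_ hx'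
      · rintro _ ⟨i, rfl⟩
        exact Submodule.subset_span ⟨1, i, by simp⟩
      · exact Submodule.zero_mem _
      · intro x y _ _ h1 h2
        exact Submodule.add_mem _ h1 h2
      · intro a x _ h1
        refine Submodule.span_induction (p := fun x _ => a • x ∈ Submodule.span k s) ?_ ?_ ?_ ?_ h1
        · rintro _ ⟨b, i, rfl⟩
          exact Submodule.subset_span ⟨a * b, i, by simp [mul_assoc]⟩
        · simp
        · intro x y _ _ h1 h2
          rw [smul_add]
          exact Submodule.add_mem _ h1 h2
        · intro c x _ h1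
          rw [smul_comm]
          exact Submodule.smul_mem _ _ h1
  obtain ⟨f, hf, -, hf3⟩ := Submodule.exists_fun_fin_finrank_span_eq k s
  choose b i hbi using hf
  obtain ⟨c, hc, hc2⟩ := linearIndependent_eval (fun l => C (b l) * g (i l)) (by
    have : (fun l => (C (b l) * g (i l)).eval 0) = f := by
      funext l
      rw [eval_mul, eval_C, hbi l]
    rw [this]
    exact hf3)
  refine ⟨c, hc, ?_⟩
  set Ic := Ideal.span (Set.range fun i => (g i).eval (algebraMap k A c)) with hIc
  have h1 : finrank k (Submodule.span k s) ≤ finrank k (Ic.restrictScalars k) := by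
    let v : Fin (finrank k (Submodule.span k s)) → Ic.restrictScalars k := fun l =>
      ⟨(C (b l) * g (i l)).eval (algebraMap k A c), by
        rw [eval_mul, eval_C]
        exact Ic.mul_mem_left _ (Ideal.subset_span ⟨i l, rfl⟩)⟩
    have hv : LinearIndependent k v := LinearIndependent.of_comp (Submodule.subtype _) hc2
    have := hv.fintype_card_le_finrank
    simpa using this
  rw [hs] at h1
  have h2 := finrank_quot_add (k := k) I0
  have h3 := finrank_quot_add (k := k) Ic
  omega

end Pool.Agent.Lib.MP_1bbd88_ag
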