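import Pool.Agent.Lib.MP_1bbd88_ag.Defs
import Pool.Agent.Lib.MP_1bbd88_ag.Semicont

/-! Pivoting: reduction of `t + 1` minors to `t` minors of a Schur complement, and the lower bound
for the colength of determinantal ideals. -/

namespace Pool.Agent.Lib.MP_1bbd88_ag

open Module

theorem det_mem_of_col {R : Type*} [CommRing R] {t : ℕ} {I : Ideal R}
    (E : Matrix (Fin (t + 1)) (Fin (t + 1)) R)
    (h : ∀ i : Fin (t + 1), (E.submatrix i.succAbove Fin.succ).det ∈ I) : E.det ∈ I := by
  rw [Matrix.det_succ_column_zero]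
  exact I.sum_mem fun i _ => I.mul_mem_left _ (h i)

/-- the determinant of a rank one perturbation is a combination of minors -/
theorem det_rank_one_mem {R : Type*} [CommRing R] {a b t : ℕ} {I : Ideal R}
    (N : Matrix (Fin a) (Fin b) R)
    (hN : ∀ (r : Fin t → Fin a) (c : Fin t → Fin b), (N.submatrix r c).det ∈ I)
    (r : Fin (t + 1) → Fin a) (c : Fin (t + 1) → Fin b) (x y : Fin (t + 1) → R) :
    (Matrix.of fun i j => N (r i) (c j) + x i * y j : Matrix (Fin (t + 1)) (Fin (t + 1)) R).det
      ∈ I := by
  let B : Matrix (Fin (t + 2)) (Fin (t + 2)) R := fun i j =>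
    Fin.cases (Fin.cases 1 (fun j => - y j) j) (fun i => Fin.cases (x i) (fun j => N (r i) (c j)) j) i
  let B' : Matrix (Fin (t + 2)) (Fin (t + 2)) R := fun i j =>
    Fin.cases (Fin.cases 1 (fun j => - y j) j)
      (fun i => Fin.cases 0 (fun j => N (r i) (c j) + x i * y j) j) i
  have h1 : B.det = B'.det := by
    refine Matrix.det_eq_of_forall_row_eq_smul_add_const (Fin.cases 0 x) 0 rfl ?_
    intro i j
    refine Fin.cases ?_ (fun i => ?_) i
    · simp [B, B']
    · refine Fin.cases ?_ (fun j => ?_) j
      · simp [B, B']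
      · simp [B, B']
  have h2 : B'.det = (Matrix.of fun i j => N (r i) (c j) + x i * y j :
      Matrix (Fin (t + 1)) (Fin (t + 1)) R).det := by
    rw [Matrix.det_succ_column_zero, Fin.sum_univ_succ]
    have e1 : ∀ i : Fin (t + 1), B' i.succ 0 = 0 := fun i => rfl
    have e2 : B' 0 0 = 1 := rfl
    simp only [e1, e2, Fin.val_zero, pow_zero, mul_zero, zero_mul, Finset.sum_const_zero, add_zero,
      one_mul]
    rfl
  rw [← h2, ← h1, Matrix.det_succ_row_zero]
  refine I.sum_mem fun j _ => I.mul_mem_left _ ?_
  refine det_mem_of_col _ fun i => ?_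
  have hz : ∀ b' : Fin t, ∃ z : Fin (t + 1), z.succ = j.succAbove b'.succ := by
    intro b'
    refine Fin.exists_succ_eq.mpr ?_
    intro h0
    rcases Fin.eq_zero_or_eq_succ j with h4 | ⟨j', h4⟩
    · rw [h4, Fin.zero_succAbove] at h0
      exact Fin.succ_ne_zero _ h0
    · rw [h4, Fin.succ_succAbove_succ] at h0
      exact Fin.succ_ne_zero _ h0
  choose z hz using hz
  have e : ((B.submatrix Fin.succ j.succAbove).submatrix i.succAbove Fin.succ) =
      N.submatrix (fun a' => r (i.succAbove a')) (fun b' => c (z b')) := by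
    ext a' b'
    rw [Matrix.submatrix_apply, Matrix.submatrix_apply, ← hz b']
    rfl
  rw [e]
  exact hN _ _

/-- pivoting on the unit entry `M 0 0` -/
theorem pivot {R : Type*} [CommRing R] {a b t : ℕ} (M : Matrix (Fin (a + 1)) (Fin (b + 1)) R)
    (v : R) (hv : M 0 0 * v = 1) :
    minors (t + 1) M ≤ minors t (Matrix.of fun (i : Fin a) (j : Fin b) =>
      M i.succ j.succ - M i.succ 0 * v * M 0 j.succ) := by
  set N' : Matrix (Fin a) (Fin b) R := Matrix.of fun (i : Fin a) (j : Fin b) =>
      M i.succ j.succ - M i.succ 0 * v * M 0 j.succ with hN'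
  let N : Matrix (Fin (a + 1)) (Fin (b + 1)) R := fun i j => M i j - M i 0 * v * M 0 j
  have hN0 : ∀ j, N 0 j = 0 := by
    intro j
    change M 0 j - M 0 0 * v * M 0 j = 0
    rw [hv, one_mul, sub_self]
  have hN0' : ∀ i, N i 0 = 0 := by
    intro i
    change M i 0 - M i 0 * v * M 0 0 = 0
    rw [mul_assoc, mul_comm v, hv, mul_one, sub_self]
  have hN : ∀ (r : Fin t → Fin (a + 1)) (c : Fin t → Fin (b + 1)),
      (N.submatrix r c).det ∈ minors t N' := by
    intro r c
    by_cases h1 : ∃ i, r i = 0
    · obtain ⟨i, hi⟩ := h1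
      rw [Matrix.det_eq_zero_of_row_eq_zero i fun j => by
        rw [Matrix.submatrix_apply, hi, hN0]]
      exact Ideal.zero_mem _
    by_cases h2 : ∃ j, c j = 0
    · obtain ⟨j, hj⟩ := h2
      rw [Matrix.det_eq_zero_of_column_eq_zero j fun i => by
        rw [Matrix.submatrix_apply, hj, hN0']]
      exact Ideal.zero_mem _
    push Not at h1 h2
    choose r' hr' using fun i => Fin.exists_succ_eq.mpr (h1 i)
    choose c' hc' using fun j => Fin.exists_succ_eq.mpr (h2 j)
    have e : N.submatrix r c = N'.submatrix r' c' := by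
      ext i j
      rw [Matrix.submatrix_apply, Matrix.submatrix_apply, ← hr' i, ← hc' j]
      rfl
    rw [e]
    exact minor_mem _ _ _
  refine minors_le fun r c => ?_
  have e : M.submatrix r c = Matrix.of fun i j => N (r i) (c j) + (M (r i) 0 * v) * M 0 (c j) := by
    ext i j
    rw [Matrix.submatrix_apply, Matrix.of_apply]
    change M (r i) (c j) = M (r i) (c j) - M (r i) 0 * v * M 0 (c j) + _
    ring
  rw [e]
  exact det_rank_one_mem N hN r c _ _

section

variable {k : Type*} [Field k] {p : ℕ} [Fact p.Prime] [CharP k p] [Infinite k]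

theorem colength {A : Type*} [CommRing A] [Algebra k A] [FiniteDimensional k A] (e t a b s : ℕ)
    (M : Matrix (Fin (a + s)) (Fin (b + s)) A) (hM : ∀ i j, M i j ^ p ^ e = 0) :
    finrank k A * finrank k (MvPolynomial (Fin a × Fin b) k ⧸
      (minors t (genMat a b k) ⊔ powI (Fin a × Fin b) k (p ^ e))) ≤
    (p ^ e) ^ (a * b) * finrank k (A ⧸ minors (t + s) M) := by
  induction s with
  | zero =>
    have h1 := transfer (k := k) (p := p) e (minors t (genMat a b k)) (fun ij => M ij.1 ij.2)
      fun ij => hM ij.1 ij.2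
    have h2 : (minors t (genMat a b k)).map (MvPolynomial.aeval fun ij : Fin a × Fin b =>
        M ij.1 ij.2) = minors t M := by
      have h3 := map_minors (t := t) ((MvPolynomial.aeval fun ij : Fin a × Fin b =>
        M ij.1 ij.2 : MvPolynomial (Fin a × Fin b) k →ₐ[k] A) : _ →+* A) (genMat a b k)
      have h4 : (genMat a b k).map ((MvPolynomial.aeval fun ij : Fin a × Fin b =>
        M ij.1 ij.2 : MvPolynomial (Fin a × Fin b) k →ₐ[k] A) : _ →+* A) = M := by
        ext i j
        rw [Matrix.map_apply, genMat]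
        change MvPolynomial.aeval _ (MvPolynomial.X (i, j)) = _
        rw [MvPolynomial.aeval_X]
      rw [h4] at h3
      exact h3
    rw [h2, Fintype.card_prod, Fintype.card_fin, Fintype.card_fin] at h1
    exact h1
  | succ s ih =>
    -- the family `M + X E₀₀`
    let G : Matrix (Fin (a + s + 1)) (Fin (b + s + 1)) (Polynomial A) := fun i j =>
      Polynomial.C (M i j) + (if i = 0 ∧ j = 0 then Polynomial.X else 0)
    have hG : ∀ (x : A) (r : Fin (t + s + 1) → Fin (a + s + 1)) (c : Fin (t + s + 1) → Fin (b + s + 1)),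
        ((G.submatrix r c).det).eval x = ((Matrix.of fun i j =>
          M i j + (if i = 0 ∧ j = 0 then x else 0) :
          Matrix (Fin (a + s + 1)) (Fin (b + s + 1)) A).submatrix r c).det := by
      intro x r c
      rw [← Polynomial.coe_evalRingHom, RingHom.map_det]
      congr 1
      ext i j
      rw [RingHom.mapMatrix_apply, Matrix.map_apply, Matrix.submatrix_apply,
        Matrix.submatrix_apply, Matrix.of_apply, Polynomial.coe_evalRingHom]
      change Polynomial.eval x (Polynomial.C (M (r i) (c j)) + _) = _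
      rw [Polynomial.eval_add, Polynomial.eval_C]
      split_ifs
      · rw [Polynomial.eval_X]
      · rw [Polynomial.eval_zero]
    obtain ⟨z, hz, hle⟩ := semicont (k := k) (fun rc : (Fin (t + s + 1) → Fin (a + s + 1)) ×
      (Fin (t + s + 1) → Fin (b + s + 1)) => (G.submatrix rc.1 rc.2).det)
    have e0 : Ideal.span (Set.range fun rc : (Fin (t + s + 1) → Fin (a + s + 1)) ×
        (Fin (t + s + 1) → Fin (b + s + 1)) => ((G.submatrix rc.1 rc.2).det).eval 0) =
        minors (t + (s + 1)) M := by
      change _ = Ideal.span _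
      congr 1
      congr 1
      funext rc
      rw [hG]
      congr 2
      ext i j
      rw [Matrix.of_apply]
      simp
    let Mz : Matrix (Fin (a + s + 1)) (Fin (b + s + 1)) A := Matrix.of fun i j =>
          M i j + (if i = 0 ∧ j = 0 then algebraMap k A z else 0)
    have e1 : Ideal.span (Set.range fun rc : (Fin (t + s + 1) → Fin (a + s + 1)) ×
        (Fin (t + s + 1) → Fin (b + s + 1)) =>
          ((G.submatrix rc.1 rc.2).det).eval (algebraMap k A z)) = minors (t + s + 1) Mz := by
      change _ = Ideal.span _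
      congr 1
      congr 1
      funext rc
      rw [hG]
    rw [e0, e1] at hle
    have hu : IsUnit (Mz 0 0) := by
      have h1 : Mz 0 0 = M 0 0 + algebraMap k A z := by
        change M 0 0 + _ = _
        simp
      rw [h1, add_comm]
      have hnil : IsNilpotent (M 0 0) := ⟨p ^ e, hM 0 0⟩
      exact hnil.isUnit_add_left_of_commute ((Ne.isUnit hz).map (algebraMap k A)) (Commute.all _ _)
    obtain ⟨v, hv⟩ := hu.exists_right_inv
    have h5 := pivot (t := t + s) Mz v hv
    set N' : Matrix (Fin (a + s)) (Fin (b + s)) A := Matrix.of fun i j =>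
      Mz i.succ j.succ - Mz i.succ 0 * v * Mz 0 j.succ with hN'
    have h6 := ih N' (by
      intro i j
      have f1 : Mz i.succ j.succ = M i.succ j.succ := by
        change M i.succ j.succ + _ = _
        simp
      have f2 : Mz i.succ 0 = M i.succ 0 := by
        change M i.succ 0 + _ = _
        simp
      have f3 : N' i j = M i.succ j.succ - M i.succ 0 * v * Mz 0 j.succ := by
        rw [hN', Matrix.of_apply, f1, f2]
      rw [f3]
      refine pow_char_zero_sub (cast_char_eq_zero k A) (hM _ _) ?_
      rw [mul_pow, mul_pow, hM, zero_mul, zero_mul])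
    calc _ ≤ (p ^ e) ^ (a * b) * finrank k (A ⧸ minors (t + s) N') := h6
      _ ≤ (p ^ e) ^ (a * b) * finrank k (A ⧸ minors (t + s + 1) Mz) :=
        Nat.mul_le_mul_left _ (finrank_quot_le_of_le h5)
      _ ≤ _ := Nat.mul_le_mul_left _ hle

end

end Pool.Agent.Lib.MP_1bbd88_ag
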