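import Pool.Agent.Lib.MP_1bbd88_ag.Len

/-! The upper bound for the quadric. -/

namespace Pool.Agent.Lib.MP_1bbd88_ag

open Module

section

variable {k T : Type*} [Field k] [CommRing T] [Algebra k T]

theorem finrank_cone_le {u v z : T} {m : ℕ} (hu : u ^ (2 * m + 1) = 0) (hv : v ^ (2 * m + 1) = 0)
    (hz : z ^ (2 * m + 1) = 0) (hz2 : z ^ 2 = -(u * v))
    (hgen : Algebra.adjoin k {u, v, z} = ⊤) :
    2 * finrank k T + 1 ≤ 3 * (2 * m + 1) ^ 2 := by
  classical
  set q := 2 * m + 1 with hq
  -- two relations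
  have hg0 : z * (u * v) ^ m = 0 := by
    have h1 : z ^ q = z * (z ^ 2) ^ m := by rw [hq, ← pow_mul, ← pow_succ']
    rw [h1, hz2, neg_pow, mul_left_comm] at hz
    have h2 : (-1 : T) ^ m * ((-1 : T) ^ m * (z * (u * v) ^ m)) = 0 := by rw [hz, mul_zero]
    rw [← mul_assoc, ← pow_add, ← two_mul, pow_mul, neg_one_sq, one_pow, one_mul] at h2
    exact h2
  have he0 : (u * v) ^ (m + 1) = 0 := by
    have h1 : z ^ 2 * (u * v) ^ m = 0 := by rw [pow_two, mul_assoc, hg0, mul_zero]
    rw [hz2, neg_mul, ← pow_succ', neg_eq_zero] at h1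
    exact h1
  let A : Finset (ℕ × ℕ) := (Finset.range q ×ˢ Finset.range q) \
    (Finset.Ico (m + 1) q ×ˢ Finset.Ico (m + 1) q)
  let B : Finset (ℕ × ℕ) := (Finset.range q ×ˢ Finset.range q) \
    (Finset.Ico m q ×ˢ Finset.Ico m q)
  let S : Finset T := A.image (fun x => u ^ x.1 * v ^ x.2) ∪
    B.image (fun x => z * (u ^ x.1 * v ^ x.2))
  let W : Submodule k T := Submodule.span k (S : Set T)
  have e_mem : ∀ a b : ℕ, u ^ a * v ^ b ∈ W := by
    intro a b
    by_cases ha : q ≤ a
    · rw [← Nat.sub_add_cancel ha, pow_add, hu, mul_zero, zero_mul]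
      exact W.zero_mem
    by_cases hb : q ≤ b
    · rw [← Nat.sub_add_cancel hb, pow_add, hv, mul_zero, mul_zero]
      exact W.zero_mem
    by_cases hab : m + 1 ≤ a ∧ m + 1 ≤ b
    · have : u ^ a * v ^ b = u ^ (a - (m + 1)) * v ^ (b - (m + 1)) * (u * v) ^ (m + 1) := by
        obtain ⟨a', rfl⟩ := Nat.exists_eq_add_of_le hab.1
        obtain ⟨b', rfl⟩ := Nat.exists_eq_add_of_le hab.2
        rw [Nat.add_sub_cancel_left, Nat.add_sub_cancel_left]
        ring
      rw [this, he0, mul_zero]
      exact W.zero_mem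
    · apply Submodule.subset_span
      apply Finset.mem_coe.2
      apply Finset.mem_union_left
      refine Finset.mem_image.2 ⟨(a, b), ?_, rfl⟩
      simp only [A, Finset.mem_sdiff, Finset.mem_product, Finset.mem_range, Finset.mem_Ico]
      omega
  have g_mem : ∀ a b : ℕ, z * (u ^ a * v ^ b) ∈ W := by
    intro a b
    by_cases ha : q ≤ a
    · rw [← Nat.sub_add_cancel ha, pow_add, hu, mul_zero, zero_mul, mul_zero]
      exact W.zero_mem
    by_cases hb : q ≤ b
    · rw [← Nat.sub_add_cancel hb, pow_add, hv, mul_zero, mul_zero, mul_zero]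
      exact W.zero_mem
    by_cases hab : m ≤ a ∧ m ≤ b
    · have : z * (u ^ a * v ^ b) = u ^ (a - m) * v ^ (b - m) * (z * (u * v) ^ m) := by
        obtain ⟨a', rfl⟩ := Nat.exists_eq_add_of_le hab.1
        obtain ⟨b', rfl⟩ := Nat.exists_eq_add_of_le hab.2
        rw [Nat.add_sub_cancel_left, Nat.add_sub_cancel_left]
        ring
      rw [this, hg0, mul_zero]
      exact W.zero_mem
    · apply Submodule.subset_span
      apply Finset.mem_coe.2
      apply Finset.mem_union_right
      refine Finset.mem_image.2 ⟨(a, b), ?_, rfl⟩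
      simp only [B, Finset.mem_sdiff, Finset.mem_product, Finset.mem_range, Finset.mem_Ico]
      omega
  -- closure under multiplication
  have hclos : ∀ t : T, (∀ a b : ℕ, t * (u ^ a * v ^ b) ∈ W) →
      (∀ a b : ℕ, t * (z * (u ^ a * v ^ b)) ∈ W) → ∀ w ∈ W, t * w ∈ W := by
    intro t h1 h2 w hw
    refine Submodule.span_induction (p := fun w _ => t * w ∈ W) ?_ ?_ ?_ ?_ hw
    · intro x hx
      rcases Finset.mem_union.1 (Finset.mem_coe.1 hx) with hx | hx
      · obtain ⟨⟨a, b⟩, _, rfl⟩ := Finset.mem_image.1 hx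
        exact h1 a b
      · obtain ⟨⟨a, b⟩, _, rfl⟩ := Finset.mem_image.1 hx
        exact h2 a b
    · rw [mul_zero]
      exact W.zero_mem
    · intro x y _ _ hx hy
      rw [mul_add]
      exact W.add_mem hx hy
    · intro c x _ hx
      rw [mul_smul_comm]
      exact W.smul_mem c hx
  have hall : ∀ t : T, ∀ w ∈ W, t * w ∈ W := by
    intro t
    have ht : t ∈ Algebra.adjoin k {u, v, z} := by rw [hgen]; trivial
    refine Algebra.adjoin_induction (p := fun t _ => ∀ w ∈ W, t * w ∈ W) ?_ ?_ ?_ ?_ ht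
    · rintro x (rfl | rfl | rfl)
      · refine hclos _ (fun a b => ?_) fun a b => ?_
        · have : x * (x ^ a * v ^ b) = x ^ (a + 1) * v ^ b := by ring
          rw [this]
          exact e_mem _ _
        · have : x * (z * (x ^ a * v ^ b)) = z * (x ^ (a + 1) * v ^ b) := by ring
          rw [this]
          exact g_mem _ _
      · refine hclos _ (fun a b => ?_) fun a b => ?_
        · have : x * (u ^ a * x ^ b) = u ^ a * x ^ (b + 1) := by ring
          rw [this]
          exact e_mem _ _
        · have : x * (z * (u ^ a * x ^ b)) = z * (u ^ a * x ^ (b + 1)) := by ring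
          rw [this]
          exact g_mem _ _
      · refine hclos _ (fun a b => g_mem a b) fun a b => ?_
        have : x * (x * (u ^ a * v ^ b)) = -(u ^ (a + 1) * v ^ (b + 1)) := by
          have : x * (x * (u ^ a * v ^ b)) = x ^ 2 * (u ^ a * v ^ b) := by ring
          rw [this, hz2]
          ring
        rw [this]
        exact W.neg_mem (e_mem _ _)
    · intro r w hw
      rw [← Algebra.smul_def]
      exact W.smul_mem r hw
    · intro x y _ _ hx hy w hw
      rw [add_mul]
      exact W.add_mem (hx w hw) (hy w hw)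
    · intro x y _ _ hx hy w hw
      rw [mul_assoc]
      exact hx _ (hy w hw)
  have hone : (1 : T) ∈ W := by
    have := e_mem 0 0
    rwa [pow_zero, pow_zero, mul_one] at this
  have htop : W = ⊤ := by
    rw [eq_top_iff]
    intro t _
    have := hall t 1 hone
    rwa [mul_one] at this
  have h1 : finrank k T ≤ S.card := by
    rw [← finrank_top k T, ← htop]
    exact finrank_span_finset_le_card S
  have hA : A.card + m * m = q * q := by
    have h2 := Finset.card_sdiff_add_card_eq_card
      (s := Finset.Ico (m + 1) q ×ˢ Finset.Ico (m + 1) q) (t := Finset.range q ×ˢ Finset.range q)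
      (by
        intro x hx
        simp only [Finset.mem_product, Finset.mem_range, Finset.mem_Ico] at hx ⊢
        omega)
    rw [Finset.card_product, Finset.card_product, Nat.card_Ico, Finset.card_range] at h2
    have h3 : q - (m + 1) = m := by omega
    rw [h3] at h2
    exact h2
  have hB : B.card + (m + 1) * (m + 1) = q * q := by
    have h2 := Finset.card_sdiff_add_card_eq_card
      (s := Finset.Ico m q ×ˢ Finset.Ico m q) (t := Finset.range q ×ˢ Finset.range q)
      (by
        intro x hx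
        simp only [Finset.mem_product, Finset.mem_range, Finset.mem_Ico] at hx ⊢
        omega)
    rw [Finset.card_product, Finset.card_product, Nat.card_Ico, Finset.card_range] at h2
    have h3 : q - m = m + 1 := by omega
    rw [h3] at h2
    exact h2
  have hS : S.card ≤ A.card + B.card :=
    (Finset.card_union_le _ _).trans (Nat.add_le_add Finset.card_image_le Finset.card_image_le)
  have h4 : finrank k T ≤ A.card + B.card := h1.trans hS
  rw [hq] at hA hB ⊢
  nlinarith

end

section

variable {k : Type*} [Field k] {N : ℕ}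

/-- the monomials of exponents `< q` span `S ⧸ J`, so the variables generate it -/
theorem adjoin_X_eq_top {q : ℕ} {J : Ideal (MvPowerSeries (Fin N) k)}
    (hJ : psI (Fin N) k q ≤ J) :
    Algebra.adjoin k (Set.range fun i => Ideal.Quotient.mk J (MvPowerSeries.X i)) = ⊤ := by
  classical
  rw [eq_top_iff]
  intro t _
  obtain ⟨f, rfl⟩ := Ideal.Quotient.mk_surjective t
  set g : MvPowerSeries (Fin N) k := ∑ v : Fin N → Fin q,
    MvPowerSeries.monomial (Finsupp.equivFunOnFinite.symm fun i => (v i : ℕ))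
      (MvPowerSeries.coeff (Finsupp.equivFunOnFinite.symm fun i => (v i : ℕ)) f) with hg
  have h1 : f - g ∈ psI (Fin N) k q := by
    rw [mem_psI_iff]
    intro α hα
    rw [map_sub, hg, map_sum]
    simp only [MvPowerSeries.coeff_monomial]
    rw [Finset.sum_eq_single (show Fin N → Fin q from fun i => ⟨α i, hα i⟩)]
    · have : (Finsupp.equivFunOnFinite.symm fun i => α i) = α := by
        ext i; rfl
      change MvPowerSeries.coeff α f - (if α = Finsupp.equivFunOnFinite.symm (fun i => α i) then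
        MvPowerSeries.coeff (Finsupp.equivFunOnFinite.symm (fun i => α i)) f else 0) = 0
      rw [this, if_pos rfl, sub_self]
    · intro v _ hv
      rw [if_neg]
      intro h2
      apply hv
      funext i
      apply Fin.ext
      have := DFunLike.congr_fun h2 i
      exact this.symm
    · intro h2
      exact absurd (Finset.mem_univ _) h2
  have h2 : Ideal.Quotient.mk J f = Ideal.Quotient.mk J g := by
    rw [Ideal.Quotient.eq]
    exact hJ h1
  rw [h2, hg, map_sum]
  refine Subalgebra.sum_mem _ fun v _ => ?_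
  rw [MvPowerSeries.monomial_eq', Finsupp.prod, map_mul, map_prod]
  refine Subalgebra.mul_mem _ ?_ (Subalgebra.prod_mem _ fun i _ => ?_)
  · exact Subalgebra.algebraMap_mem _ _
  · rw [map_pow]
    exact Subalgebra.pow_mem _ (Algebra.subset_adjoin (Set.mem_range_self i)) _

theorem quad_core {p : ℕ} [Fact p.Prime] [CharP k p] (hp : p ≠ 2) {ι : k} (hι : ι ^ 2 = -1)
    (e d : ℕ) {T : Type*} [CommRing T] [Algebra k T] (x : Fin (d + 3) → T)
    (hx : ∀ i, x i ^ p ^ e = 0) (hx3 : ∀ i : Fin d, x i.succ.succ.succ = 0)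
    (h2 : ∑ i, x i ^ 2 = 0) (htop : Algebra.adjoin k (Set.range x) = ⊤) :
    2 * finrank k T + 1 ≤ 3 * (p ^ e) ^ 2 := by
  set q := p ^ e with hq
  have hxs : x 0 ^ 2 + x 1 ^ 2 + x 2 ^ 2 = 0 := by
    rw [Fin.sum_univ_succ, Fin.sum_univ_succ, Fin.sum_univ_succ] at h2
    rw [Finset.sum_eq_zero (s := Finset.univ (α := Fin d))] at h2
    · rw [add_zero, ← add_assoc] at h2
      exact h2
    · intro i _
      simp [hx3]
  -- the new coordinates
  have h2k : (2 : k) ≠ 0 := by
    intro h2
    have h3 : ((2 : ℕ) : k) = 0 := by exact_mod_cast h2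
    rw [CharP.cast_eq_zero_iff k p] at h3
    exact hp ((Nat.prime_dvd_prime_iff_eq Fact.out Nat.prime_two).1 h3)
  have hι0 : ι ≠ 0 := by
    rintro rfl
    rw [zero_pow two_ne_zero] at hι
    exact one_ne_zero (neg_eq_zero.1 hι.symm)
  obtain ⟨m, hm⟩ : ∃ m, q = 2 * m + 1 := by
    have h2 : Odd q := by
      rw [hq]
      exact ((Fact.out : p.Prime).odd_of_ne_two hp).pow
    obtain ⟨m, hm⟩ := h2
    exact ⟨m, hm⟩
  have hpz : ((p : ℕ) : T) = 0 := cast_char_eq_zero k _
  set u : T := x 0 + algebraMap k T ι * x 1 with hu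
  set v : T := x 0 + -(algebraMap k T ι * x 1) with hv
  have hι' : algebraMap k T ι ^ 2 = -1 := by rw [← map_pow, hι, map_neg, map_one]
  have hy : (algebraMap k T ι * x 1) ^ q = 0 := by rw [mul_pow, hx, mul_zero]
  have huq : u ^ q = 0 := pow_char_zero_add hpz (hx 0) hy
  have hvq : v ^ q = 0 := pow_char_zero_add hpz (hx 0) (by rw [neg_pow, ← hq, hy, mul_zero])
  have huv : x 2 ^ 2 = -(u * v) := by
    have h2 : u * v = x 0 ^ 2 + x 1 ^ 2 := by
      have : u * v = x 0 ^ 2 - algebraMap k T ι ^ 2 * x 1 ^ 2 := by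
        rw [hu, hv]
        ring
      rw [this, hι']
      ring
    rw [h2]
    linear_combination hxs
  have hgen : Algebra.adjoin k {u, v, x 2} = ⊤ := by
    rw [eq_top_iff, ← htop, Algebra.adjoin_le_iff]
    have hu' : u ∈ Algebra.adjoin k {u, v, x 2} := Algebra.subset_adjoin (by simp)
    have hv' : v ∈ Algebra.adjoin k {u, v, x 2} := Algebra.subset_adjoin (by simp)
    have hz' : x 2 ∈ Algebra.adjoin k {u, v, x 2} := Algebra.subset_adjoin (by simp)
    have h0 : x 0 = algebraMap k T (1 / 2) * (u + v) := by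
      have : u + v = algebraMap k T 2 * x 0 := by
        rw [hu, hv, map_ofNat]
        ring
      rw [this, ← mul_assoc, ← map_mul, one_div, inv_mul_cancel₀ h2k, map_one, one_mul]
    have h1' : x 1 = algebraMap k T (1 / (2 * ι)) * (u - v) := by
      have : u - v = algebraMap k T (2 * ι) * x 1 := by
        rw [hu, hv, map_mul, map_ofNat]
        ring
      rw [this, ← mul_assoc, ← map_mul, one_div, inv_mul_cancel₀ (mul_ne_zero h2k hι0), map_one,
        one_mul]
    rintro _ ⟨i, rfl⟩
    refine Fin.cases ?_ (fun i => Fin.cases ?_ (fun i => Fin.cases ?_ (fun i => ?_) i) i) i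
    · rw [h0]
      exact Subalgebra.mul_mem _ (Subalgebra.algebraMap_mem _ _) (Subalgebra.add_mem _ hu' hv')
    · change x 1 ∈ Algebra.adjoin k {u, v, x 2}
      rw [h1']
      exact Subalgebra.mul_mem _ (Subalgebra.algebraMap_mem _ _) (Subalgebra.sub_mem _ hu' hv')
    · exact hz'
    · change x i.succ.succ.succ ∈ Algebra.adjoin k {u, v, x 2}
      rw [hx3]
      exact Subalgebra.zero_mem _
  have h5 := finrank_cone_le (k := k) (T := T) (u := u) (v := v) (z := x 2) (m := m)
    (by rw [← hm]; exact huq) (by rw [← hm]; exact hvq) (by rw [← hm]; exact hx 2) huv hgen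
  rw [← hm] at h5
  exact h5

/-- The quadric: `2 dim S ⧸ (∑ X_i ^ 2, X_i ^ q) ≤ (3 q² - 1) q ^ d` in `d + 3` variables. -/
theorem quad_upper {p : ℕ} [Fact p.Prime] [CharP k p] (hp : p ≠ 2) {ι : k} (hι : ι ^ 2 = -1)
    (e d : ℕ) :
    2 * finrank k (MvPowerSeries (Fin (d + 3)) k ⧸
      (Ideal.span {∑ i, (MvPowerSeries.X i : MvPowerSeries (Fin (d + 3)) k) ^ 2} ⊔
        psI (Fin (d + 3)) k (p ^ e))) + (p ^ e) ^ d ≤ 3 * (p ^ e) ^ (d + 2) := by
  classical
  set q := p ^ e with hq
  set J : Ideal (MvPowerSeries (Fin (d + 3)) k) :=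
    Ideal.span {∑ i, (MvPowerSeries.X i : MvPowerSeries (Fin (d + 3)) k) ^ 2} ⊔
        psI (Fin (d + 3)) k q with hJ
  have hle : psI (Fin (d + 3)) k q ≤ J := le_sup_right
  let w : Fin (d + 3) → MvPowerSeries (Fin (d + 3)) k ⧸ J := fun i =>
    Ideal.Quotient.mk J (MvPowerSeries.X i)
  have hw : ∀ i, w i ^ q = 0 := by
    intro i
    change (Ideal.Quotient.mk J (MvPowerSeries.X i)) ^ q = 0
    rw [← map_pow, Ideal.Quotient.eq_zero_iff_mem]
    exact hle (Ideal.subset_span ⟨i, rfl⟩)
  have hsum : ∑ i, w i ^ 2 = 0 := by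
    have h1 : ∑ i, w i ^ 2 = Ideal.Quotient.mk J
        (∑ i, (MvPowerSeries.X i : MvPowerSeries (Fin (d + 3)) k) ^ 2) := by
      rw [map_sum]
      simp only [map_pow]
      rfl
    rw [h1, Ideal.Quotient.eq_zero_iff_mem]
    exact Ideal.mem_sup_left (Ideal.subset_span rfl)
  have hfin : FiniteDimensional k (MvPowerSeries (Fin (d + 3)) k ⧸ J) :=
    Module.Finite.of_surjective (Ideal.Quotient.factorₐ k hle).toLinearMap
      (Ideal.Quotient.factor_surjective hle)
  let s : Finset (Fin (d + 3)) := Finset.univ.image fun i : Fin d => i.succ.succ.succ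
  have hs : s.card = d := by
    rw [Finset.card_image_of_injective, Finset.card_univ, Fintype.card_fin]
    intro i j hij
    simpa using hij
  have h1 := finrank_le_pow_mul_quot (k := k) (w := w) (q := q) s fun i _ => hw i
  rw [hs] at h1
  have h5 := quad_core (k := k) hp hι e d
    (T := (MvPowerSeries (Fin (d + 3)) k ⧸ J) ⧸ Ideal.span (w '' (s : Set (Fin (d + 3)))))
    (fun i => Ideal.Quotient.mk _ (w i))
    (fun i => by rw [← map_pow, ← hq, hw, map_zero])
    (fun i => by
      rw [Ideal.Quotient.eq_zero_iff_mem]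
      refine Ideal.subset_span ⟨i.succ.succ.succ, ?_, rfl⟩
      exact Finset.mem_coe.2 (Finset.mem_image_of_mem _ (Finset.mem_univ i)))
    (by
      have h3 : ∑ i, (Ideal.Quotient.mk (Ideal.span (w '' (s : Set (Fin (d + 3))))) (w i)) ^ 2 =
          Ideal.Quotient.mk (Ideal.span (w '' (s : Set (Fin (d + 3))))) (∑ i, w i ^ 2) := by
        rw [map_sum]
        simp only [map_pow]
      rw [h3, hsum, map_zero])
    (by
      have h3 := congrArg (Subalgebra.map (Ideal.Quotient.mkₐ k
        (Ideal.span (w '' (s : Set (Fin (d + 3))))))) (adjoin_X_eq_top hle)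
      rw [AlgHom.map_adjoin, Algebra.map_top, ← Set.range_comp] at h3
      rw [(AlgHom.range_eq_top _).2 (Ideal.Quotient.mkₐ_surjective k _)] at h3
      exact h3)
  rw [← hq] at h5
  calc 2 * finrank k (MvPowerSeries (Fin (d + 3)) k ⧸ J) + q ^ d
      ≤ 2 * (q ^ d * finrank k ((MvPowerSeries (Fin (d + 3)) k ⧸ J) ⧸
          Ideal.span (w '' (s : Set (Fin (d + 3)))))) + q ^ d := by
        exact Nat.add_le_add_right (Nat.mul_le_mul_left 2 h1) _
    _ = q ^ d * (2 * finrank k ((MvPowerSeries (Fin (d + 3)) k ⧸ J) ⧸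
          Ideal.span (w '' (s : Set (Fin (d + 3))))) + 1) := by ring
    _ ≤ q ^ d * (3 * q ^ 2) := Nat.mul_le_mul_left _ h5
    _ = 3 * q ^ (d + 2) := by ring

end

end Pool.Agent.Lib.MP_1bbd88_ag
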