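import Pool.Agent.Lib.MP_1bbd88_ag.Quad

/-! ROW 1bbd88-Q (quadrics in at least 8 variables). As `quad_upper` in Quad.lean: kill the last
`d` variables (`finrank_le_pow_mul_quot`), then put `u_i = x_(2i) + ι x_(2i+1)`,
`v_i = x_(2i) - ι x_(2i+1)`, `i < 4`, so `∑ u_i v_i = 0`, `u_i ^ q = v_i ^ q = 0`. The algebra is spanned by
the monomials `u ^ A v ^ B` with `A_i, B_i < q` such that `min A_i B_i = 0` for the first `i = i*`
with `|A_i - B_i|` minimal: write `u ^ A v ^ B = (∏ u_i ^ (A_i - B_i) v_i ^ (B_i - A_i)) ∏ (u_i v_i) ^ t_i`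
and replace one factor `u_i* v_i*` by `- ∑_(i ≠ i*) u_i v_i` as long as `t_i* > 0`. Their number is at
most `4 * ∑ n ∈ [1, q], 2 * (n * (n + 1)) ^ 3` (`n = q - |A_i* - B_i*|`; the number of `(A, B)` with
`A, B < q`, `|A - B| ≥ q - n` is at most `n (n + 1)`), and `7 * (n * (n + 1)) ^ 3 ≤ (n + 1) ^ 7 - n ^ 7`. -/

namespace Pool.Agent.Lib.MP_1bbd88_ag

open Module

/-- the distance of the two exponents -/
def dst (c : ℕ × ℕ) : ℕ := (c.1 - c.2) + (c.2 - c.1)

/-- pairs of exponents `< q` of distance at least `q - n` -/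
def pairsN (q n : ℕ) : Finset (ℕ × ℕ) :=
  (Finset.range q ×ˢ Finset.range q).filter fun c => q ≤ n + dst c

theorem card_pairsN {q n : ℕ} (hn : n ≤ q) : (pairsN q n).card ≤ n * (n + 1) := by
  have h1 : (Finset.range n ×ˢ Finset.range (n + 1)).card = n * (n + 1) := by
    rw [Finset.card_product, Finset.card_range, Finset.card_range]
  rw [← h1]
  refine Finset.card_le_card_of_injOn
    (fun c => if c.2 ≤ c.1 then (c.2, c.1 - (q - n) + 1) else (c.2 - (q - n), c.1)) ?_ ?_
  · rintro ⟨a, b⟩ hc
    have hc' := Finset.mem_coe.1 hc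
    simp only [pairsN, dst, Finset.mem_filter, Finset.mem_product, Finset.mem_range] at hc'
    apply Finset.mem_coe.2
    rw [Finset.mem_product, Finset.mem_range, Finset.mem_range]
    dsimp only
    split_ifs with h
    · dsimp only
      omega
    · dsimp only
      omega
  · rintro ⟨a, b⟩ hc ⟨a', b'⟩ hc' h
    have h2 := Finset.mem_coe.1 hc
    have h3 := Finset.mem_coe.1 hc'
    simp only [pairsN, dst, Finset.mem_filter, Finset.mem_product, Finset.mem_range] at h2 h3
    dsimp only at h
    split_ifs at h with h4 h5 h5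
    · rw [Prod.mk.injEq] at h ⊢
      omega
    · rw [Prod.mk.injEq] at h ⊢
      omega
    · rw [Prod.mk.injEq] at h ⊢
      omega
    · rw [Prod.mk.injEq] at h ⊢
      omega

/-- the exponents of the spanning monomials -/
def expF (q : ℕ) (i : Fin 4) (n : ℕ) : Finset (Fin 4 → ℕ × ℕ) :=
  Fintype.piFinset fun j => if j = i then {(q - n, 0), (0, q - n)} else pairsN q n

theorem card_expF {q n : ℕ} (hn : n ≤ q) (i : Fin 4) :
    (expF q i n).card ≤ 2 * (n * (n + 1)) ^ 3 := by
  rw [expF, Fintype.card_piFinset]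
  calc ∏ j, (if j = i then ({(q - n, 0), (0, q - n)} : Finset (ℕ × ℕ)) else pairsN q n).card
      ≤ ∏ j, (if j = i then 2 else n * (n + 1)) := by
        refine Finset.prod_le_prod' fun j _ => ?_
        split_ifs with h
        · exact Finset.card_le_two
        · exact card_pairsN hn
    _ = 2 * (n * (n + 1)) ^ 3 := by
        rw [Finset.prod_ite, Finset.prod_const, Finset.prod_const]
        have h1 : (Finset.univ.filter fun j : Fin 4 => j = i).card = 1 := by
          rw [Finset.filter_eq', if_pos (Finset.mem_univ _), Finset.card_singleton]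
        have h2 : (Finset.univ.filter fun j : Fin 4 => ¬ j = i).card = 3 := by
          have := Finset.card_filter_add_card_filter_not (s := (Finset.univ : Finset (Fin 4)))
            (fun j => j = i)
          rw [h1, Finset.card_univ, Fintype.card_fin] at this
          omega
        rw [h1, h2, pow_one]

theorem sum_seven (q : ℕ) :
    7 * ∑ n ∈ Finset.range q, ((n + 1) * (n + 2)) ^ 3 + 1 ≤ (q + 1) ^ 7 := by
  induction q with
  | zero => simp
  | succ q ih =>
    rw [Finset.sum_range_succ, mul_add]
    have h : (q + 1) ^ 7 + 7 * ((q + 1) * (q + 2)) ^ 3 ≤ (q + 1 + 1) ^ 7 := by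
      have e : (q + 1 + 1) ^ 7 = (q + 1) ^ 7 + 7 * ((q + 1) * (q + 2)) ^ 3 +
          (14 * (q + 1) ^ 4 + 28 * (q + 1) ^ 3 + 21 * (q + 1) ^ 2 + 7 * (q + 1) + 1) := by
        ring
      rw [e]
      exact Nat.le_add_right _ _
    omega

section

variable {k T : Type*} [Field k] [CommRing T] [Algebra k T]

/-- the monomials -/
def mon4 (u v : Fin 4 → T) (c : Fin 4 → ℕ × ℕ) : T := ∏ j, u j ^ (c j).1 * v j ^ (c j).2

theorem mon4_update (u v : Fin 4 → T) (c : Fin 4 → ℕ × ℕ) (j : Fin 4) (a b : ℕ) :
    mon4 u v (Function.update c j ((c j).1 + a, (c j).2 + b)) =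
      u j ^ a * v j ^ b * mon4 u v c := by
  classical
  rw [mon4, mon4, ← Finset.mul_prod_erase Finset.univ _ (Finset.mem_univ j),
    ← Finset.mul_prod_erase Finset.univ (fun j => u j ^ (c j).1 * v j ^ (c j).2)
      (Finset.mem_univ j), Function.update_self, ← mul_assoc]
  have h : ∏ x ∈ Finset.univ.erase j, u x ^ (Function.update c j ((c j).1 + a, (c j).2 + b) x).1 *
      v x ^ (Function.update c j ((c j).1 + a, (c j).2 + b) x).2 =
      ∏ x ∈ Finset.univ.erase j, u x ^ (c x).1 * v x ^ (c x).2 := by
    refine Finset.prod_congr rfl fun x hx => ?_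
    rw [Function.update_of_ne (Finset.ne_of_mem_erase hx)]
  rw [h]
  congr 1
  dsimp only
  rw [pow_add, pow_add]
  ring

theorem finrank_quad4_le {u v : Fin 4 → T} {q : ℕ} (hu : ∀ i, u i ^ q = 0)
    (hv : ∀ i, v i ^ q = 0) (huv : ∑ i, u i * v i = 0)
    (hgen : Algebra.adjoin k (Set.range u ∪ Set.range v) = ⊤) :
    7 * finrank k T ≤ 8 * (q + 1) ^ 7 := by
  classical
  let S : Finset T := Finset.univ.biUnion fun i : Fin 4 =>
    (Finset.range q).biUnion fun n => (expF q i (n + 1)).image (mon4 u v)
  let W : Submodule k T := Submodule.span k (S : Set T)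
  have key : ∀ (t : ℕ) (c : Fin 4 → ℕ × ℕ) (i : Fin 4), (∀ j, dst (c i) ≤ dst (c j)) →
      min (c i).1 (c i).2 = t → mon4 u v c ∈ W := by
    intro t
    induction t with
    | zero =>
      intro c i hi ht
      by_cases hq : ∀ j, (c j).1 < q ∧ (c j).2 < q
      · apply Submodule.subset_span
        apply Finset.mem_coe.2
        refine Finset.mem_biUnion.2 ⟨i, Finset.mem_univ i, ?_⟩
        have h0 := hq i
        refine Finset.mem_biUnion.2 ⟨q - 1 - dst (c i), ?_, ?_⟩
        · rw [Finset.mem_range]
          omega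
        · refine Finset.mem_image.2 ⟨c, ?_, rfl⟩
          rw [expF, Fintype.mem_piFinset]
          intro j
          split_ifs with hj
          · subst hj
            rw [Finset.mem_insert, Finset.mem_singleton]
            have e1 : q - (q - 1 - dst (c j) + 1) = dst (c j) := by
              unfold dst
              omega
            rw [e1]
            rcases Nat.eq_zero_or_pos (c j).2 with h2 | h2
            · left
              refine Prod.ext ?_ h2
              change (c j).1 = dst (c j)
              unfold dst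
              omega
            · right
              have h3 : (c j).1 = 0 := by omega
              refine Prod.ext h3 ?_
              change (c j).2 = dst (c j)
              unfold dst
              omega
          · rw [pairsN, Finset.mem_filter, Finset.mem_product, Finset.mem_range, Finset.mem_range]
            refine ⟨hq j, ?_⟩
            have := hi j
            omega
      · push Not at hq
        obtain ⟨j, hj⟩ := hq
        have h0 : mon4 u v c = 0 := by
          rw [mon4]
          apply Finset.prod_eq_zero (Finset.mem_univ j)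
          by_cases h : (c j).1 < q
          · rw [← Nat.sub_add_cancel (hj h), pow_add, hv, mul_zero, mul_zero]
          · rw [← Nat.sub_add_cancel (not_lt.1 h), pow_add, hu, mul_zero, zero_mul]
        rw [h0]
        exact W.zero_mem
    | succ t ih =>
      intro c i hi ht
      set c' : Fin 4 → ℕ × ℕ := Function.update c i ((c i).1 - 1, (c i).2 - 1) with hc'
      have e1 : c = Function.update c' i ((c' i).1 + 1, (c' i).2 + 1) := by
        rw [hc', Function.update_self, Function.update_idem]
        have : ((c i).1 - 1 + 1, (c i).2 - 1 + 1) = c i := by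
          refine Prod.ext ?_ ?_
          · change (c i).1 - 1 + 1 = (c i).1
            omega
          · change (c i).2 - 1 + 1 = (c i).2
            omega
        rw [this, Function.update_eq_self]
      have e2 : mon4 u v c = u i * v i * mon4 u v c' := by
        conv_lhs => rw [e1]
        rw [mon4_update, pow_one, pow_one]
      have e3 : u i * v i = - ∑ j ∈ Finset.univ.erase i, u j * v j := by
        rw [← Finset.add_sum_erase Finset.univ _ (Finset.mem_univ i)] at huv
        exact eq_neg_of_add_eq_zero_left huv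
      rw [e2, e3, neg_mul, Finset.sum_mul]
      refine W.neg_mem (W.sum_mem fun j hj => ?_)
      have hji : j ≠ i := Finset.ne_of_mem_erase hj
      have e4 : u j * v j * mon4 u v c' =
          mon4 u v (Function.update c' j ((c' j).1 + 1, (c' j).2 + 1)) := by
        rw [mon4_update, pow_one, pow_one]
      rw [e4]
      have hci : c' i = ((c i).1 - 1, (c i).2 - 1) := by rw [hc', Function.update_self]
      have hcj : ∀ l, l ≠ i → c' l = c l := fun l hl => by
        rw [hc', Function.update_of_ne hl]
      have hd : ∀ l, dst (Function.update c' j ((c' j).1 + 1, (c' j).2 + 1) l) = dst (c l) := by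
        intro l
        by_cases hl : l = j
        · subst hl
          rw [Function.update_self, hcj l hji]
          unfold dst
          dsimp only
          omega
        · rw [Function.update_of_ne hl]
          by_cases hl' : l = i
          · subst hl'
            rw [hci]
            unfold dst
            dsimp only
            omega
          · rw [hcj l hl']
      refine ih _ i (fun l => ?_) ?_
      · rw [hd, hd]
        exact hi l
      · rw [Function.update_of_ne hji.symm, hci]
        dsimp only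
        omega
  have hmon : ∀ c : Fin 4 → ℕ × ℕ, mon4 u v c ∈ W := by
    intro c
    obtain ⟨i, -, hi⟩ := Finset.exists_min_image (Finset.univ : Finset (Fin 4))
      (fun j => dst (c j)) Finset.univ_nonempty
    exact key _ c i (fun j => hi j (Finset.mem_univ j)) rfl
  have hclos : ∀ t : T, (∀ c : Fin 4 → ℕ × ℕ, t * mon4 u v c ∈ W) → ∀ w ∈ W, t * w ∈ W := by
    intro t h1 w hw
    refine Submodule.span_induction (p := fun w _ => t * w ∈ W) ?_ ?_ ?_ ?_ hw
    · intro x hx
      obtain ⟨i, _, hx⟩ := Finset.mem_biUnion.1 (Finset.mem_coe.1 hx)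
      obtain ⟨n, _, hx⟩ := Finset.mem_biUnion.1 hx
      obtain ⟨c, _, rfl⟩ := Finset.mem_image.1 hx
      exact h1 c
    · rw [mul_zero]
      exact W.zero_mem
    · intro x y _ _ hx hy
      rw [mul_add]
      exact W.add_mem hx hy
    · intro c x _ hx
      rw [mul_smul_comm]
      exact W.smul_mem c hx
  have hall : ∀ t : T, ∀ w ∈ W, t * w ∈ W := by
    intro t
    have ht : t ∈ Algebra.adjoin k (Set.range u ∪ Set.range v) := by rw [hgen]; trivial
    refine Algebra.adjoin_induction (p := fun t _ => ∀ w ∈ W, t * w ∈ W) ?_ ?_ ?_ ?_ ht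
    · rintro x (⟨j, rfl⟩ | ⟨j, rfl⟩)
      · refine hclos _ fun c => ?_
        have h1 := mon4_update u v c j 1 0
        rw [pow_one, pow_zero, mul_one] at h1
        rw [← h1]
        exact hmon _
      · refine hclos _ fun c => ?_
        have h1 := mon4_update u v c j 0 1
        rw [pow_one, pow_zero, one_mul] at h1
        rw [← h1]
        exact hmon _
    · intro r w hw
      rw [← Algebra.smul_def]
      exact W.smul_mem r hw
    · intro x y _ _ hx hy w hw
      rw [add_mul]
      exact W.add_mem (hx w hw) (hy w hw)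
    · intro x y _ _ hx hy w hw
      rw [mul_assoc]
      exact hx _ (hy w hw)
  have hone : (1 : T) ∈ W := by
    have := hmon fun _ => (0, 0)
    have h1 : mon4 u v (fun _ => (0, 0)) = 1 := by
      rw [mon4]
      simp
    rwa [h1] at this
  have htop : W = ⊤ := by
    rw [eq_top_iff]
    intro t _
    have := hall t 1 hone
    rwa [mul_one] at this
  have h1 : finrank k T ≤ S.card := by
    rw [← finrank_top k T, ← htop]
    exact finrank_span_finset_le_card S
  have h2 : S.card ≤ 4 * ∑ n ∈ Finset.range q, 2 * ((n + 1) * (n + 2)) ^ 3 := by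
    calc S.card ≤ ∑ i : Fin 4, ((Finset.range q).biUnion fun n =>
          (expF q i (n + 1)).image (mon4 u v)).card := Finset.card_biUnion_le
      _ ≤ ∑ i : Fin 4, ∑ n ∈ Finset.range q, 2 * ((n + 1) * (n + 2)) ^ 3 := by
          refine Finset.sum_le_sum fun i _ => ?_
          refine Finset.card_biUnion_le.trans (Finset.sum_le_sum fun n hn => ?_)
          exact Finset.card_image_le.trans (card_expF (by rw [Finset.mem_range] at hn; omega) i)
      _ = 4 * ∑ n ∈ Finset.range q, 2 * ((n + 1) * (n + 2)) ^ 3 := by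
          rw [Finset.sum_const, Finset.card_univ, Fintype.card_fin, smul_eq_mul]
  have h3 := sum_seven q
  rw [← Finset.mul_sum] at h2
  omega

end

section

variable {k : Type*} [Field k]

theorem quad8_core {p : ℕ} [Fact p.Prime] [CharP k p] (hp : p ≠ 2) {ι : k} (hι : ι ^ 2 = -1)
    (e d : ℕ) {T : Type*} [CommRing T] [Algebra k T] (x : Fin (d + 8) → T)
    (hx : ∀ i, x i ^ p ^ e = 0) (hx8 : ∀ i : Fin (d + 8), 8 ≤ (i : ℕ) → x i = 0)
    (h2 : ∑ i, x i ^ 2 = 0) (htop : Algebra.adjoin k (Set.range x) = ⊤) :
    7 * finrank k T ≤ 8 * (p ^ e + 1) ^ 7 := by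
  set q := p ^ e with hq
  let a : Fin 4 → T := fun j => x ⟨2 * j, by omega⟩
  let b : Fin 4 → T := fun j => x ⟨2 * j + 1, by omega⟩
  have hsum : ∑ j : Fin 4, (a j ^ 2 + b j ^ 2) = 0 := by
    rw [Fin.sum_univ_succ, Fin.sum_univ_succ, Fin.sum_univ_succ, Fin.sum_univ_succ,
      Fin.sum_univ_succ, Fin.sum_univ_succ, Fin.sum_univ_succ, Fin.sum_univ_succ,
      Finset.sum_eq_zero (s := Finset.univ (α := Fin d))] at h2
    · rw [Fin.sum_univ_four]
      change x 0 ^ 2 + (x 1 ^ 2 + (x 2 ^ 2 + (x 3 ^ 2 + (x 4 ^ 2 + (x 5 ^ 2 + (x 6 ^ 2 +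
        (x 7 ^ 2 + 0))))))) = 0 at h2
      change (x 0 ^ 2 + x 1 ^ 2) + (x 2 ^ 2 + x 3 ^ 2) + (x 4 ^ 2 + x 5 ^ 2) +
        (x 6 ^ 2 + x 7 ^ 2) = 0
      linear_combination h2
    · intro i _
      rw [hx8 _ (by simp)]
      simp
  -- the new coordinates
  have h2k : (2 : k) ≠ 0 := by
    intro h2
    have h3 : ((2 : ℕ) : k) = 0 := by exact_mod_cast h2
    rw [CharP.cast_eq_zero_iff k p] at h3
    exact hp ((Nat.prime_dvd_prime_iff_eq Fact.out Nat.prime_two).1 h3)
  have hι0 : ι ≠ 0 := by
    rintro rfl
    rw [zero_pow two_ne_zero] at hι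
    exact one_ne_zero (neg_eq_zero.1 hι.symm)
  have hpz : ((p : ℕ) : T) = 0 := cast_char_eq_zero k _
  let u : Fin 4 → T := fun j => a j + algebraMap k T ι * b j
  let v : Fin 4 → T := fun j => a j + -(algebraMap k T ι * b j)
  have hι' : algebraMap k T ι ^ 2 = -1 := by rw [← map_pow, hι, map_neg, map_one]
  have hy : ∀ j, (algebraMap k T ι * b j) ^ q = 0 := fun j => by rw [mul_pow, hx, mul_zero]
  have huq : ∀ j, u j ^ q = 0 := fun j => pow_char_zero_add hpz (hx _) (hy j)
  have hvq : ∀ j, v j ^ q = 0 := fun j =>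
    pow_char_zero_add hpz (hx _) (by rw [neg_pow, ← hq, hy, mul_zero])
  have huv : ∑ j, u j * v j = 0 := by
    rw [← hsum]
    refine Finset.sum_congr rfl fun j _ => ?_
    have : u j * v j = a j ^ 2 - algebraMap k T ι ^ 2 * b j ^ 2 := by
      change (a j + algebraMap k T ι * b j) * (a j + -(algebraMap k T ι * b j)) = _
      ring
    rw [this, hι']
    ring
  have hgen : Algebra.adjoin k (Set.range u ∪ Set.range v) = ⊤ := by
    rw [eq_top_iff, ← htop, Algebra.adjoin_le_iff]
    have hu' : ∀ j, u j ∈ Algebra.adjoin k (Set.range u ∪ Set.range v) := fun j =>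
      Algebra.subset_adjoin (Or.inl ⟨j, rfl⟩)
    have hv' : ∀ j, v j ∈ Algebra.adjoin k (Set.range u ∪ Set.range v) := fun j =>
      Algebra.subset_adjoin (Or.inr ⟨j, rfl⟩)
    have h0 : ∀ j, a j = algebraMap k T (1 / 2) * (u j + v j) := by
      intro j
      have : u j + v j = algebraMap k T 2 * a j := by
        change (a j + algebraMap k T ι * b j) + (a j + -(algebraMap k T ι * b j)) = _
        rw [map_ofNat]
        ring
      rw [this, ← mul_assoc, ← map_mul, one_div, inv_mul_cancel₀ h2k, map_one, one_mul]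
    have h1' : ∀ j, b j = algebraMap k T (1 / (2 * ι)) * (u j - v j) := by
      intro j
      have : u j - v j = algebraMap k T (2 * ι) * b j := by
        change (a j + algebraMap k T ι * b j) - (a j + -(algebraMap k T ι * b j)) = _
        rw [map_mul, map_ofNat]
        ring
      rw [this, ← mul_assoc, ← map_mul, one_div, inv_mul_cancel₀ (mul_ne_zero h2k hι0), map_one,
        one_mul]
    rintro _ ⟨i, rfl⟩
    by_cases hi : 8 ≤ (i : ℕ)
    · change x i ∈ _
      rw [hx8 i hi]
      exact Subalgebra.zero_mem _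
    · rcases Nat.even_or_odd' (i : ℕ) with ⟨m, hm | hm⟩
      · have e1 : x i = a ⟨m, by omega⟩ := by
          change x i = x _
          congr 1
          exact Fin.ext hm
        change x i ∈ _
        rw [e1, h0]
        exact Subalgebra.mul_mem _ (Subalgebra.algebraMap_mem _ _)
          (Subalgebra.add_mem _ (hu' _) (hv' _))
      · have e1 : x i = b ⟨m, by omega⟩ := by
          change x i = x _
          congr 1
          exact Fin.ext hm
        change x i ∈ _
        rw [e1, h1']
        exact Subalgebra.mul_mem _ (Subalgebra.algebraMap_mem _ _)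
          (Subalgebra.sub_mem _ (hu' _) (hv' _))
  exact finrank_quad4_le huq hvq huv hgen

end

theorem quad8_upper {k : Type*} [Field k] {p : ℕ} [Fact p.Prime] [CharP k p] (hp : p ≠ 2) {ι : k}
    (hι : ι ^ 2 = -1) (e d : ℕ) :
    7 * finrank k (MvPowerSeries (Fin (d + 8)) k ⧸
      (Ideal.span {∑ i, (MvPowerSeries.X i : MvPowerSeries (Fin (d + 8)) k) ^ 2} ⊔
        psI (Fin (d + 8)) k (p ^ e))) ≤ 8 * (p ^ e + 1) ^ 7 * (p ^ e) ^ d := by
  classical
  set q := p ^ e with hq
  set J : Ideal (MvPowerSeries (Fin (d + 8)) k) :=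
    Ideal.span {∑ i, (MvPowerSeries.X i : MvPowerSeries (Fin (d + 8)) k) ^ 2} ⊔
        psI (Fin (d + 8)) k q with hJ
  have hle : psI (Fin (d + 8)) k q ≤ J := le_sup_right
  let w : Fin (d + 8) → MvPowerSeries (Fin (d + 8)) k ⧸ J := fun i =>
    Ideal.Quotient.mk J (MvPowerSeries.X i)
  have hw : ∀ i, w i ^ q = 0 := by
    intro i
    change (Ideal.Quotient.mk J (MvPowerSeries.X i)) ^ q = 0
    rw [← map_pow, Ideal.Quotient.eq_zero_iff_mem]
    exact hle (Ideal.subset_span ⟨i, rfl⟩)
  have hsum : ∑ i, w i ^ 2 = 0 := by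
    have h1 : ∑ i, w i ^ 2 = Ideal.Quotient.mk J
        (∑ i, (MvPowerSeries.X i : MvPowerSeries (Fin (d + 8)) k) ^ 2) := by
      rw [map_sum]
      simp only [map_pow]
      rfl
    rw [h1, Ideal.Quotient.eq_zero_iff_mem]
    exact Ideal.mem_sup_left (Ideal.subset_span rfl)
  have hfin : FiniteDimensional k (MvPowerSeries (Fin (d + 8)) k ⧸ J) :=
    Module.Finite.of_surjective (Ideal.Quotient.factorₐ k hle).toLinearMap
      (Ideal.Quotient.factor_surjective hle)
  let s : Finset (Fin (d + 8)) := Finset.univ.image fun i : Fin d => i.addNat 8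
  have hs : s.card = d := by
    rw [Finset.card_image_of_injective, Finset.card_univ, Fintype.card_fin]
    intro i j hij
    simpa using hij
  have h1 := finrank_le_pow_mul_quot (k := k) (w := w) (q := q) s fun i _ => hw i
  rw [hs] at h1
  have h5 := quad8_core (k := k) hp hι e d
    (T := (MvPowerSeries (Fin (d + 8)) k ⧸ J) ⧸ Ideal.span (w '' (s : Set (Fin (d + 8)))))
    (fun i => Ideal.Quotient.mk _ (w i))
    (fun i => by rw [← map_pow, ← hq, hw, map_zero])
    (fun i hi => by
      rw [Ideal.Quotient.eq_zero_iff_mem]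
      refine Ideal.subset_span ⟨i, ?_, rfl⟩
      apply Finset.mem_coe.2
      refine Finset.mem_image.2 ⟨⟨i - 8, by omega⟩, Finset.mem_univ _, ?_⟩
      apply Fin.ext
      simp only [Fin.val_addNat]
      omega)
    (by
      have h3 : ∑ i, (Ideal.Quotient.mk (Ideal.span (w '' (s : Set (Fin (d + 8))))) (w i)) ^ 2 =
          Ideal.Quotient.mk (Ideal.span (w '' (s : Set (Fin (d + 8))))) (∑ i, w i ^ 2) := by
        rw [map_sum]
        simp only [map_pow]
      rw [h3, hsum, map_zero])
    (by
      have h3 := congrArg (Subalgebra.map (Ideal.Quotient.mkₐ k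
        (Ideal.span (w '' (s : Set (Fin (d + 8))))))) (adjoin_X_eq_top hle)
      rw [AlgHom.map_adjoin, Algebra.map_top, ← Set.range_comp] at h3
      rw [(AlgHom.range_eq_top _).2 (Ideal.Quotient.mkₐ_surjective k _)] at h3
      exact h3)
  rw [← hq] at h5
  calc 7 * finrank k (MvPowerSeries (Fin (d + 8)) k ⧸ J)
      ≤ 7 * (q ^ d * finrank k ((MvPowerSeries (Fin (d + 8)) k ⧸ J) ⧸
          Ideal.span (w '' (s : Set (Fin (d + 8)))))) := Nat.mul_le_mul_left 7 h1
    _ = q ^ d * (7 * finrank k ((MvPowerSeries (Fin (d + 8)) k ⧸ J) ⧸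
          Ideal.span (w '' (s : Set (Fin (d + 8)))))) := by ring
    _ ≤ q ^ d * (8 * (q + 1) ^ 7) := Nat.mul_le_mul_left _ h5
    _ = 8 * (q + 1) ^ 7 * q ^ d := by ring

end Pool.Agent.Lib.MP_1bbd88_ag
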