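import Pool.Agent.Lib.MP_1bbd88_ag.Lin

/-! The transfer inequality: colengths of an ideal pulled back along a map `y_i ↦ n_i`. -/

namespace Pool.Agent.Lib.MP_1bbd88_ag

open Module TensorProduct

theorem pow_char_zero_sub {R : Type*} [CommRing R] {p : ℕ} [Fact p.Prime] (hp : (p : R) = 0)
    {x y : R} {e : ℕ} (hx : x ^ p ^ e = 0) (hy : y ^ p ^ e = 0) : (x - y) ^ p ^ e = 0 := by
  rcases subsingleton_or_nontrivial R with h | h
  · exact Subsingleton.elim _ _
  · have : CharP R p := by
      have h1 : ringChar R ∣ p := (ringChar.spec R p).mp hp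
      rcases (Nat.dvd_prime (Fact.out (p := p.Prime))).mp h1 with h2 | h2
      · exact absurd h2 CharP.ringChar_ne_one
      · rw [← h2]
        exact ringChar.charP R
    rw [sub_pow_char_pow, hx, hy, sub_zero]

/-- the ideal `(X_i ^ q)` -/
noncomputable def powI (σ : Type*) (k : Type*) [CommSemiring k] (q : ℕ) :
    Ideal (MvPolynomial σ k) :=
  Ideal.span (Set.range fun i => (MvPolynomial.X i : MvPolynomial σ k) ^ q)

theorem cast_char_eq_zero (k : Type*) [Field k] {p : ℕ} [CharP k p] (R : Type*) [CommRing R]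
    [Algebra k R] : (p : R) = 0 := by
  rw [← map_natCast (algebraMap k R) p, CharP.cast_eq_zero, map_zero]

section

variable {k : Type*} [Field k] {p : ℕ} [Fact p.Prime] [CharP k p]
variable {σ : Type*} [Fintype σ]

theorem transfer_aux {A Q T : Type*} [CommRing A] [Algebra k A] [FiniteDimensional k A]
    [CommRing Q] [Algebra k Q] [CommRing T] [Algebra k T] [FiniteDimensional k T]
    (a : A →ₐ[k] T) (b : Q →ₐ[k] T)
    (hab : ∀ P : T → Prop, P 0 → (∀ x y, P (a x * b y)) → (∀ s t, P s → P t → P (s + t)) →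
      ∀ t, P t)
    (e : ℕ) (J : Ideal (MvPolynomial σ k)) (n : σ → A) (hn : ∀ i, n i ^ p ^ e = 0)
    (c : MvPolynomial σ k →ₐ[k] Q) (hc : Function.Surjective c) (hJ : ∀ f ∈ J, c f = 0)
    (hX : ∀ i, c (MvPolynomial.X i) ^ p ^ e = 0) :
    finrank k T ≤
      (p ^ e) ^ Fintype.card σ * finrank k (A ⧸ J.map (MvPolynomial.aeval n)) := by
  classical
  let w : σ → T := fun i => b (c (MvPolynomial.X i)) - a (n i)
  have hw : ∀ i, w i ^ p ^ e = 0 := by
    intro i
    refine pow_char_zero_sub (cast_char_eq_zero k T) ?_ ?_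
    · rw [← map_pow, hX i, map_zero]
    · rw [← map_pow, hn i, map_zero]
  have h1 := finrank_le_pow_mul_quot (k := k) (T := T) (w := w) (q := p ^ e) Finset.univ
    fun i _ => hw i
  refine h1.trans (Nat.mul_le_mul_left _ ?_)
  set W := Ideal.span (w '' ((Finset.univ : Finset σ) : Set σ)) with hW
  let g : A →ₐ[k] T ⧸ W := (Ideal.Quotient.mkₐ k W).comp a
  have hg : ∀ f : MvPolynomial σ k, g (MvPolynomial.aeval n f) = Ideal.Quotient.mk W (b (c f)) := by
    intro f
    have : g.comp (MvPolynomial.aeval n) = (Ideal.Quotient.mkₐ k W).comp (b.comp c) := by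
      apply MvPolynomial.algHom_ext
      intro i
      simp only [AlgHom.comp_apply, MvPolynomial.aeval_X]
      change Ideal.Quotient.mk W (a (n i)) = Ideal.Quotient.mk W (b (c (MvPolynomial.X i)))
      symm
      rw [← sub_eq_zero, ← map_sub, Ideal.Quotient.eq_zero_iff_mem]
      exact Ideal.subset_span ⟨i, by simp, rfl⟩
    exact congrArg (fun h => h f) this
  have hsur : Function.Surjective g := by
    intro t
    obtain ⟨t, rfl⟩ := Ideal.Quotient.mk_surjective t
    refine hab (fun t => ∃ x, g x = Ideal.Quotient.mk W t) ⟨0, by rw [map_zero, map_zero]⟩ ?_ ?_ t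
    · intro x y
      obtain ⟨f, rfl⟩ := hc y
      refine ⟨x * MvPolynomial.aeval n f, ?_⟩
      rw [map_mul, hg, map_mul]
      rfl
    · rintro s t ⟨x, hx⟩ ⟨y, hy⟩
      exact ⟨x + y, by rw [map_add, map_add, hx, hy]⟩
  have hker : J.map (MvPolynomial.aeval n) ≤ RingHom.ker g := by
    rw [Ideal.map_le_iff_le_comap]
    intro f hf
    rw [Ideal.mem_comap, RingHom.mem_ker]
    have h3 := hg f
    rw [hJ f hf, map_zero, map_zero] at h3
    exact h3
  let g' : (A ⧸ J.map (MvPolynomial.aeval n)) →ₐ[k] T ⧸ W :=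
    Ideal.Quotient.liftₐ _ g fun x hx => hker hx
  have hg' : Function.Surjective g' := by
    intro t
    obtain ⟨x, rfl⟩ := hsur t
    exact ⟨Ideal.Quotient.mk _ x, rfl⟩
  exact LinearMap.finrank_le_finrank_of_surjective (f := g'.toLinearMap) hg'

theorem transfer {A : Type*} [CommRing A] [Algebra k A] [FiniteDimensional k A]
    (e : ℕ) (J : Ideal (MvPolynomial σ k)) (n : σ → A) (hn : ∀ i, n i ^ p ^ e = 0)
    [FiniteDimensional k (MvPolynomial σ k ⧸ (J ⊔ powI σ k (p ^ e)))] :
    finrank k A * finrank k (MvPolynomial σ k ⧸ (J ⊔ powI σ k (p ^ e))) ≤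
      (p ^ e) ^ Fintype.card σ * finrank k (A ⧸ J.map (MvPolynomial.aeval n)) := by
  rw [← Module.finrank_tensorProduct]
  refine transfer_aux (T := A ⊗[k] (MvPolynomial σ k ⧸ (J ⊔ powI σ k (p ^ e))))
    Algebra.TensorProduct.includeLeft Algebra.TensorProduct.includeRight ?_ e J n hn
    (Ideal.Quotient.mkₐ k _) Ideal.Quotient.mk_surjective ?_ ?_
  · intro P h0 h1 h2 t
    induction t using TensorProduct.induction_on with
    | zero => exact h0
    | tmul x y =>
      have := h1 x y
      simpa using this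
    | add x y hx hy => exact h2 x y hx hy
  · intro f hf
    exact Ideal.Quotient.eq_zero_iff_mem.mpr (Ideal.mem_sup_left hf)
  · intro i
    rw [← map_pow]
    exact Ideal.Quotient.eq_zero_iff_mem.mpr (Ideal.mem_sup_right (Ideal.subset_span ⟨i, rfl⟩))

end

end Pool.Agent.Lib.MP_1bbd88_ag
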